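import Mathlib
import Pool.Agent.TeamU.G4

/-! Packing: elements of an ideal of a totally real field in a box. -/

set_option autoImplicit false

open NumberField NumberField.InfinitePlace Module

namespace Pool.Agent.U516.SP

variable {L : Type} [Field L] [NumberField L]

/-- an element of `I` smaller than `N(I)^(1/d)` in all places vanishes -/
theorem eq_zero_of_lt (I : Ideal (𝓞 L)) (δ : ℝ) (hδ : 0 < δ)
    (hI : δ ^ finrank ℚ L ≤ (Ideal.absNorm I : ℝ)) (x : 𝓞 L) (hx : x ∈ I)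
    (h : ∀ w : InfinitePlace L, w (x : L) < δ) : x = 0 := by
  by_contra h0
  have hx0 : (x : L) ≠ 0 := fun h' => h0 (RingOfIntegers.ext (h'.trans (map_zero _).symm))
  have h1 := InfinitePlace.prod_eq_abs_norm (x : L)
  have h3 : ∏ w : InfinitePlace L, δ ^ w.mult = δ ^ finrank ℚ L := by
    rw [Finset.prod_pow_eq_pow_sum, InfinitePlace.sum_mult_eq]
  have h2 : ∏ w : InfinitePlace L, w (x : L) ^ w.mult < δ ^ finrank ℚ L := by
    rw [← h3]
    obtain ⟨w₀⟩ : Nonempty (InfinitePlace L) := inferInstance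
    refine Finset.prod_lt_prod (fun w _ => pow_pos (InfinitePlace.pos_iff.mpr hx0) _)
      (fun w _ => pow_le_pow_left₀ (apply_nonneg w _) (h w).le _) ⟨w₀, Finset.mem_univ _, ?_⟩
    exact pow_lt_pow_left₀ (h w₀) (apply_nonneg w₀ _) InfinitePlace.mult_ne_zero
  have h4 : ((Ideal.absNorm (Ideal.span {x}) : ℕ) : ℝ) =
      ∏ w : InfinitePlace L, w (x : L) ^ w.mult := by
    rw [Ideal.absNorm_span_singleton, h1]
    have h2 : ((Algebra.norm ℤ x).natAbs : ℝ) = |((Algebra.norm ℚ (x : L) : ℚ) : ℝ)| := by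
      rw [← Algebra.coe_norm_int x, Nat.cast_natAbs]
      push_cast
      rfl
    rw [h2]
    push_cast
    rfl
  have h5 : Ideal.absNorm I ∣ Ideal.absNorm (Ideal.span {x}) :=
    map_dvd Ideal.absNorm (Ideal.dvd_span_singleton.mpr hx)
  have h6 : Ideal.absNorm (Ideal.span {x}) ≠ 0 := by
    rw [Ne, Ideal.absNorm_eq_zero_iff, Ideal.span_singleton_eq_bot]
    exact h0
  have h7 : (Ideal.absNorm I : ℝ) ≤ (Ideal.absNorm (Ideal.span {x}) : ℝ) := by
    exact_mod_cast Nat.le_of_dvd (Nat.pos_of_ne_zero h6) h5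
  rw [h4] at h7
  linarith

theorem card_pack (hr : IsTotallyReal L) (I : Ideal (𝓞 L)) (δ R : ℝ) (hδ : 0 < δ) (hR : 0 ≤ R)
    (hI : δ ^ finrank ℚ L ≤ (Ideal.absNorm I : ℝ)) (S : Finset (𝓞 L))
    (hS : ∀ x ∈ S, x ∈ I ∧ ∀ w : InfinitePlace L, w (x : L) ≤ R) :
    (S.card : ℝ) ≤ (2 * (R / δ) + 2) ^ finrank ℚ L := by
  classical
  let σ : InfinitePlace L → (L →+* ℝ) := fun w => embedding_of_isReal (hr.isReal w)
  have hσ : ∀ w x, |σ w x| = w x := fun w x => by
    rw [← Real.norm_eq_abs]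
    exact norm_embedding_of_isReal (hr.isReal w) x
  let f : 𝓞 L → (InfinitePlace L → ℤ) := fun x w => ⌊σ w (x : L) / δ⌋
  let T : Finset (InfinitePlace L → ℤ) := Fintype.piFinset fun _ => Finset.Icc ⌊-(R / δ)⌋ ⌊R / δ⌋
  have hcardw : Fintype.card (InfinitePlace L) = finrank ℚ L := by
    rw [← InfinitePlace.sum_mult_eq (K := L), Fintype.card_eq_sum_ones]
    refine Finset.sum_congr rfl fun w _ => ?_
    rw [mult, if_pos (hr.isReal w)]
  have h0 : 0 ≤ R / δ := by positivity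
  have hT : (T.card : ℝ) ≤ (2 * (R / δ) + 2) ^ finrank ℚ L := by
    simp only [T, Fintype.card_piFinset, Int.card_Icc, Finset.prod_const, Finset.card_univ, hcardw]
    push_cast
    refine pow_le_pow_left₀ (Nat.cast_nonneg _) ?_ _
    have h1 : ⌊-(R / δ)⌋ ≤ ⌊R / δ⌋ := Int.floor_mono (by linarith)
    have h2 : ((⌊R / δ⌋ + 1 - ⌊-(R / δ)⌋).toNat : ℤ) = ⌊R / δ⌋ + 1 - ⌊-(R / δ)⌋ :=
      Int.toNat_of_nonneg (by omega)
    have h3 : (((⌊R / δ⌋ + 1 - ⌊-(R / δ)⌋).toNat : ℕ) : ℝ) = (⌊R / δ⌋ : ℝ) + 1 - ⌊-(R / δ)⌋ := by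
      exact_mod_cast h2
    rw [h3]
    have h4 := Int.floor_le (R / δ)
    have h5 := Int.lt_floor_add_one (-(R / δ))
    linarith
  refine le_trans ?_ hT
  have : S.card ≤ T.card := by
    refine Finset.card_le_card_of_injOn f ?_ ?_
    · intro x hx
      simp only [T, Finset.mem_coe, Fintype.mem_piFinset, Finset.mem_Icc, f]
      intro w
      have h1 := (hS x hx).2 w
      rw [← hσ, abs_le] at h1
      constructor
      · refine Int.floor_mono ?_
        rw [← neg_div]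
        exact div_le_div_of_nonneg_right h1.1 hδ.le
      · exact Int.floor_mono (div_le_div_of_nonneg_right h1.2 hδ.le)
    · intro x hx y hy hxy
      have h0 : x - y = 0 := by
        refine eq_zero_of_lt I δ hδ hI (x - y) (I.sub_mem (hS x hx).1 (hS y hy).1) fun w => ?_
        have h1 := congrFun hxy w
        have h2 := Int.abs_sub_lt_one_of_floor_eq_floor h1
        have h3 : ((x - y : 𝓞 L) : L) = (x : L) - (y : L) := by push_cast; ring
        rw [h3, ← hσ, map_sub]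
        rw [← sub_div, abs_div, abs_of_pos hδ, div_lt_one hδ] at h2
        exact h2
      exact sub_eq_zero.mp h0
  exact_mod_cast this

end Pool.Agent.U516.SP
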