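import Mathlib
import Pool.Agent.U516.SP.Pack

/-! The number of divisors of an ideal and the number of ideals of small norm. -/

set_option autoImplicit false

open NumberField NumberField.InfinitePlace Module
open Pool.Agent.TeamU
open scoped NNReal

namespace Pool.Agent.U516.SP

variable {L : Type} [Field L] [NumberField L]

/-- an ideal has at most as many divisors as its norm -/
theorem divisors_le (J : Ideal (𝓞 L)) (hJ : J ≠ ⊥) :
    ∃ F : Finset (Ideal (𝓞 L)), (∀ b, b ∣ J → b ∈ F) ∧ F.card ≤ Ideal.absNorm J := by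
  classical
  revert hJ
  refine UniqueFactorizationMonoid.induction_on_prime
    (P := fun J : Ideal (𝓞 L) => J ≠ ⊥ → ∃ F : Finset (Ideal (𝓞 L)),
      (∀ b, b ∣ J → b ∈ F) ∧ F.card ≤ Ideal.absNorm J) J ?_ ?_ ?_
  · intro h
    exact absurd Ideal.zero_eq_bot h
  · intro x hx _
    refine ⟨{⊤}, fun b hb => ?_, ?_⟩
    · rw [Finset.mem_singleton]
      have := isUnit_of_dvd_unit hb hx
      rwa [Ideal.isUnit_iff] at this
    · rw [Ideal.isUnit_iff] at hx
      rw [hx]
      simp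
  · intro a p ha hp ih _
    obtain ⟨F', hF', hcard⟩ := ih (by rwa [← Ideal.zero_eq_bot])
    refine ⟨F' ∪ F'.image (fun b => p * b), fun b hb => ?_, ?_⟩
    · rw [Finset.mem_union, Finset.mem_image]
      by_cases hpb : p ∣ b
      · obtain ⟨c, rfl⟩ := hpb
        exact Or.inr ⟨c, hF' c ((mul_dvd_mul_iff_left hp.ne_zero).mp hb), rfl⟩
      · left
        apply hF'
        obtain ⟨e, he⟩ := hb
        have h1 : p ∣ b * e := ⟨a, he.symm⟩
        rcases hp.dvd_or_dvd h1 with h | ⟨e', rfl⟩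
        · exact absurd h hpb
        · refine ⟨e', mul_left_cancel₀ hp.ne_zero ?_⟩
          rw [he]; ring
    · have hp2 : 2 ≤ Ideal.absNorm p := by
        have h0 : Ideal.absNorm p ≠ 0 := by
          rw [Ne, Ideal.absNorm_eq_zero_iff]
          exact hp.ne_zero
        have h1 : Ideal.absNorm p ≠ 1 := by
          rw [Ne, Ideal.absNorm_eq_one_iff]
          intro h
          exact hp.not_unit (Ideal.isUnit_iff.mpr h)
        omega
      calc (F' ∪ F'.image (fun b => p * b)).card ≤ F'.card + (F'.image (fun b => p * b)).card :=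
            Finset.card_union_le _ _
        _ ≤ F'.card + F'.card := Nat.add_le_add_left Finset.card_image_le _
        _ = 2 * F'.card := by ring
        _ ≤ Ideal.absNorm p * Ideal.absNorm a := Nat.mul_le_mul hp2 hcard
        _ = _ := by rw [map_mul]

/-- the elements with bounded conjugates -/
theorem exists_box (B : ℝ) : ∃ S : Finset (𝓞 L), ∀ x : 𝓞 L, x ∈ S ↔
    ∀ w : InfinitePlace L, w (x : L) ≤ B := by
  have h : {x : 𝓞 L | ∀ w : InfinitePlace L, w (x : L) ≤ B}.Finite := by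
    have h1 := Embeddings.finite_of_norm_le L ℂ B
    refine Set.Finite.of_injOn (f := fun x : 𝓞 L => (x : L)) (t := _) ?_ ?_ h1
    · intro x hx
      refine ⟨RingOfIntegers.isIntegral_coe x, fun φ => ?_⟩
      have := hx (InfinitePlace.mk φ)
      rwa [InfinitePlace.apply] at this
    · intro x _ y _ hxy
      exact RingOfIntegers.ext hxy
  exact ⟨h.toFinset, fun x => by simp⟩

/-- the ideals of norm at most `2 ^ (e d)` -/
theorem ideals_le (hr : IsTotallyReal L) (e : ℕ)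
    (he : √|(discr L : ℝ)| < ((2 : ℝ) ^ e) ^ finrank ℚ L) :
    ∃ F : Finset (Ideal (𝓞 L)), (∀ b : Ideal (𝓞 L), b ≠ ⊥ →
      (Ideal.absNorm b : ℝ) ≤ ((2 : ℝ) ^ e) ^ finrank ℚ L → b ∈ F) ∧
      (F.card : ℝ) ≤ ((2 * 4 ^ e + 2) * 4 ^ e) ^ finrank ℚ L := by
  classical
  set d := finrank ℚ L with hd
  obtain ⟨S, hS⟩ := exists_box (L := L) ((4 : ℝ) ^ e)
  have hdiv : ∀ x : 𝓞 L, ∃ F : Finset (Ideal (𝓞 L)), (x ≠ 0 → ∀ b, b ∣ Ideal.span {x} → b ∈ F) ∧
      (x ∈ S → (F.card : ℝ) ≤ (4 ^ e) ^ d) := by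
    intro x
    by_cases hx : x = 0
    · exact ⟨∅, fun h => absurd hx h, fun _ => by simp⟩
    · obtain ⟨F, hF1, hF2⟩ := divisors_le (Ideal.span {x}) (by
        rw [Ne, Ideal.span_singleton_eq_bot]; exact hx)
      refine ⟨F, fun _ => hF1, fun hxS => ?_⟩
      have h1 := absNorm_span_le x ((4 : ℝ) ^ e) ((hS x).mp hxS)
      refine le_trans ?_ h1
      exact_mod_cast hF2
  choose G hG1 hG2 using hdiv
  refine ⟨S.biUnion G, ?_, ?_⟩
  · intro b hb hN
    obtain ⟨x, hxb, hx0, hxw⟩ := exists_small_mem_ideal L b hb ⟨(4 : ℝ) ^ e, by positivity⟩ (by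
      show _ < ((4 : ℝ) ^ e) ^ finrank ℚ L
      rw [← hd, show (4 : ℝ) = 2 * 2 by norm_num, mul_pow, mul_pow]
      have hd0 : (0 : ℝ) < (2 ^ e) ^ d := by positivity
      rcases Nat.eq_zero_or_pos (Ideal.absNorm b) with h0 | h0
      · rw [h0, Nat.cast_zero, zero_mul]; positivity
      · calc (Ideal.absNorm b : ℝ) * √|(discr L : ℝ)| < (Ideal.absNorm b : ℝ) * ((2 : ℝ) ^ e) ^ d :=
              mul_lt_mul_of_pos_left he (by exact_mod_cast h0)
          _ ≤ ((2 : ℝ) ^ e) ^ d * ((2 : ℝ) ^ e) ^ d := mul_le_mul_of_nonneg_right hN hd0.le)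
    exact Finset.mem_biUnion.mpr ⟨x, (hS x).mpr fun w => (hxw w).le,
      hG1 x hx0 b (Ideal.dvd_span_singleton.mpr hxb)⟩
  · have h1 := card_pack hr (⊤ : Ideal (𝓞 L)) 1 (4 ^ e) one_pos (by positivity) (by simp) S
      (fun x hx => ⟨Submodule.mem_top, (hS x).mp hx⟩)
    rw [← hd, div_one] at h1
    calc ((S.biUnion G).card : ℝ) ≤ ∑ x ∈ S, ((G x).card : ℝ) := by
          exact_mod_cast Finset.card_biUnion_le
      _ ≤ S.card • ((4 ^ e) ^ d : ℝ) := Finset.sum_le_card_nsmul _ _ _ fun x hx => hG2 x hx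
      _ = S.card * (4 ^ e) ^ d := nsmul_eq_mul _ _
      _ ≤ (2 * 4 ^ e + 2) ^ d * (4 ^ e) ^ d := mul_le_mul_of_nonneg_right h1 (by positivity)
      _ = _ := by rw [← mul_pow]

end Pool.Agent.U516.SP
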