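import Mathlib

/-! Many lattice points in a set of large volume (Blichfeldt with multiplicity), and many elements
of an ideal with small conjugates. -/

set_option autoImplicit false

open MeasureTheory ENNReal Module MeasureTheory.Measure Set
open scoped Pointwise NNReal

namespace Pool.Agent.U516.SP

/-- Blichfeldt's principle with multiplicity. -/
theorem exists_many {E L : Type*} [MeasurableSpace E] {μ : Measure E} {F s : Set E}
    [AddGroup L] [Countable L] [AddAction L E] [MeasurableSpace L] [MeasurableVAdd L E]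
    [VAddInvariantMeasure L E μ]
    (fund : IsAddFundamentalDomain L F μ) (hS : NullMeasurableSet s μ) (N : ℕ)
    (h : N * μ F < μ s) :
    ∃ x : E, ∃ T : Finset L, N < T.card ∧ ∀ g ∈ T, x ∈ g +ᵥ s := by
  classical
  by_contra hcon
  push Not at hcon
  refine absurd h (not_lt.mpr ?_)
  have hmeas : ∀ g : L, NullMeasurableSet (g +ᵥ s) (μ.restrict F) := fun g =>
    (hS.vadd g).mono_ac Measure.restrict_le_self.absolutelyContinuous
  have hpt : ∀ x : E, ∑' g : L, (g +ᵥ s).indicator (1 : E → ℝ≥0∞) x ≤ N := by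
    intro x
    rw [ENNReal.tsum_eq_iSup_sum]
    refine iSup_le fun T' => ?_
    have h1 : ∑ g ∈ T', (g +ᵥ s).indicator (1 : E → ℝ≥0∞) x =
        ((T'.filter fun g => x ∈ g +ᵥ s).card : ℝ≥0∞) := by
      rw [Finset.card_filter, Nat.cast_sum]
      refine Finset.sum_congr rfl fun g _ => ?_
      by_cases hg : x ∈ g +ᵥ s
      · simp [hg]
      · simp [hg]
    rw [h1]
    have h2 : (T'.filter fun g => x ∈ g +ᵥ s).card ≤ N := by
      by_contra h3
      obtain ⟨g, hg, hg'⟩ := hcon x _ (not_le.mp h3)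
      exact hg' (Finset.mem_filter.mp hg).2
    exact_mod_cast h2
  calc μ s = ∑' g : L, μ ((g +ᵥ s) ∩ F) := fund.measure_eq_tsum s
    _ = ∑' g : L, ∫⁻ x in F, (g +ᵥ s).indicator (1 : E → ℝ≥0∞) x ∂μ := by
        refine tsum_congr fun g => ?_
        rw [lintegral_indicator_one₀ (hmeas g), Measure.restrict_apply₀ (hmeas g)]
    _ = ∫⁻ x in F, ∑' g : L, (g +ᵥ s).indicator (1 : E → ℝ≥0∞) x ∂μ := by
        rw [lintegral_tsum]
        intro g
        exact AEMeasurable.indicator₀ aemeasurable_one (hmeas g)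
    _ ≤ ∫⁻ _ in F, (N : ℝ≥0∞) ∂μ := lintegral_mono fun x => hpt x
    _ = N * μ F := by rw [setLIntegral_const]

end Pool.Agent.U516.SP
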