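import Mathlib
import Pool.Agent.U516.SP.Blich

/-! Many elements of an ideal with small conjugates. -/

set_option autoImplicit false

open NumberField NumberField.InfinitePlace NumberField.mixedEmbedding Module MeasureTheory
open scoped nonZeroDivisors NNReal ENNReal Pointwise

namespace Pool.Agent.U516.SP

variable (K : Type*) [Field K] [NumberField K]

theorem sub_mem_body {c : ℝ≥0} {x y : mixedSpace K}
    (hx : x ∈ convexBodyLT K (fun _ => c / 2)) (hy : y ∈ convexBodyLT K (fun _ => c / 2)) :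
    x - y ∈ convexBodyLT K (fun _ => c) := by
  have h2 : ((c / 2 : ℝ≥0) : ℝ) + ((c / 2 : ℝ≥0) : ℝ) = c := by push_cast; ring
  simp only [Set.mem_prod, Set.mem_pi, Set.mem_univ, forall_true_left, mem_ball_zero_iff,
    Prod.fst_sub, Prod.snd_sub, Pi.sub_apply] at hx hy ⊢
  refine ⟨fun w => ?_, fun w => ?_⟩
  · rw [← h2]
    exact lt_of_le_of_lt (norm_sub_le _ _) (add_lt_add (hx.1 w) (hy.1 w))
  · rw [← h2]
    exact lt_of_le_of_lt (norm_sub_le _ _) (add_lt_add (hx.2 w) (hy.2 w))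

/-- If `N * N(I) * sqrt |disc K| < c ^ [K:ℚ]` then the ideal `I` contains at least `N` nonzero
elements all of whose absolute values are `< c`. -/
theorem many_mem_ideal (I : Ideal (𝓞 K)) (hI : I ≠ ⊥) (c : ℝ≥0) (N : ℕ)
    (hc : (N : ℝ) * (Ideal.absNorm I : ℝ) * √|(discr K : ℝ)| < (c : ℝ) ^ finrank ℚ K) :
    ∃ S : Finset (𝓞 K), N ≤ S.card ∧ ∀ x ∈ S, x ∈ I ∧ x ≠ 0 ∧
      ∀ w : InfinitePlace K, w (x : K) < c := by
  classical
  have hI' : (I : FractionalIdeal (𝓞 K)⁰ K) ≠ 0 := FractionalIdeal.coeIdeal_ne_zero.mpr hI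
  let J : (FractionalIdeal (𝓞 K)⁰ K)ˣ := Units.mk0 (I : FractionalIdeal (𝓞 K)⁰ K) hI'
  have hN : finrank ℚ K = nrRealPlaces K + 2 * nrComplexPlaces K :=
    (card_add_two_mul_card_eq_rank K).symm
  have hprod : ∏ w : InfinitePlace K, (c / 2 : ℝ≥0) ^ (mult w) = (c / 2) ^ finrank ℚ K := by
    rw [Finset.prod_pow_eq_pow_sum, sum_mult_eq]
  have h : (N : ℝ≥0∞) * volume (ZSpan.fundamentalDomain (fractionalIdealLatticeBasis K J)) <
      volume (convexBodyLT K (fun _ => c / 2)) := by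
    rw [volume_fundamentalDomain_fractionalIdealLatticeBasis,
      volume_fundamentalDomain_latticeBasis, convexBodyLT_volume,
      hprod]
    have h1 : (FractionalIdeal.absNorm J.1 : ℚ) = (Ideal.absNorm I : ℚ) := by
      rw [Units.val_mk0, FractionalIdeal.coeIdeal_absNorm]
    rw [h1]
    have h2 : ENNReal.ofReal ((Ideal.absNorm I : ℚ) : ℝ) = ((Ideal.absNorm I : ℝ≥0) : ℝ≥0∞) := by
      rw [Rat.cast_natCast, ENNReal.ofReal_natCast]; simp
    rw [h2]
    have h3 : ((2 : ℝ≥0∞)⁻¹ ^ nrComplexPlaces K) = (((2 : ℝ≥0)⁻¹ ^ nrComplexPlaces K : ℝ≥0) : ℝ≥0∞) := by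
      rw [ENNReal.coe_pow, ENNReal.coe_inv two_ne_zero]; rfl
    have h3' : (N : ℝ≥0∞) = ((N : ℝ≥0) : ℝ≥0∞) := by simp
    rw [h3, h3', ← ENNReal.coe_mul,
      ← ENNReal.coe_mul, ← ENNReal.coe_mul, ← ENNReal.coe_mul, ENNReal.coe_lt_coe,
      ← NNReal.coe_lt_coe]
    push_cast
    rw [Int.norm_eq_abs, NNReal.coe_real_pi]
    have h4 : (2 : ℝ)⁻¹ ^ nrComplexPlaces K * 2 ^ nrRealPlaces K * 2 ^ (2 * nrComplexPlaces K) =
        2 ^ nrRealPlaces K * 2 ^ nrComplexPlaces K := by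
      rw [pow_mul', sq, inv_pow]
      field_simp
    have h5 : (2 : ℝ)⁻¹ ^ nrComplexPlaces K * 2 ^ finrank ℚ K =
        2 ^ nrRealPlaces K * 2 ^ nrComplexPlaces K := by
      rw [hN, pow_add, ← mul_assoc, h4]
    have h2d : (0 : ℝ) < 2 ^ finrank ℚ K := by positivity
    have key : ((N : ℝ) * ((Ideal.absNorm I : ℝ) * ((2 : ℝ)⁻¹ ^ nrComplexPlaces K *
        √|(discr K : ℝ)|))) * 2 ^ finrank ℚ K <
        (2 ^ nrRealPlaces K * Real.pi ^ nrComplexPlaces K * ((c : ℝ) / 2) ^ finrank ℚ K) *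
          2 ^ finrank ℚ K := by
      calc ((N : ℝ) * ((Ideal.absNorm I : ℝ) * ((2 : ℝ)⁻¹ ^ nrComplexPlaces K *
          √|(discr K : ℝ)|))) * 2 ^ finrank ℚ K
          = ((N : ℝ) * (Ideal.absNorm I : ℝ) * √|(discr K : ℝ)|) *
            ((2 : ℝ)⁻¹ ^ nrComplexPlaces K * 2 ^ finrank ℚ K) := by ring
        _ = ((N : ℝ) * (Ideal.absNorm I : ℝ) * √|(discr K : ℝ)|) *
            (2 ^ nrRealPlaces K * 2 ^ nrComplexPlaces K) := by rw [h5]
        _ < (c : ℝ) ^ finrank ℚ K * (2 ^ nrRealPlaces K * 2 ^ nrComplexPlaces K) := by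
            apply mul_lt_mul_of_pos_right hc; positivity
        _ ≤ (c : ℝ) ^ finrank ℚ K * (2 ^ nrRealPlaces K * Real.pi ^ nrComplexPlaces K) := by
            gcongr
            exact Real.two_le_pi
        _ = _ := by rw [div_pow]; field_simp
    exact lt_of_mul_lt_mul_right key h2d.le
  have h_fund := ZSpan.isAddFundamentalDomain' (fractionalIdealLatticeBasis K J) volume
  have hcount : Countable (Submodule.span ℤ
      (Set.range (fractionalIdealLatticeBasis K J))).toAddSubgroup := by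
    change Countable (Submodule.span ℤ (Set.range (fractionalIdealLatticeBasis K J)))
    infer_instance
  obtain ⟨x, T, hT, hxT⟩ := exists_many h_fund
    ((convexBodyLT_convex K (fun _ => c / 2)).nullMeasurableSet _) N h
  have hrep : ∀ g : (Submodule.span ℤ
      (Set.range (fractionalIdealLatticeBasis K J))).toAddSubgroup,
      ∃ a : 𝓞 K, a ∈ I ∧ mixedEmbedding K (a : K) = g.1 := by
    rintro ⟨g, hg⟩
    rw [Submodule.mem_toAddSubgroup, mem_span_fractionalIdealLatticeBasis] at hg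
    obtain ⟨a, ha, rfl⟩ := hg
    have ha' : a ∈ (I : FractionalIdeal (𝓞 K)⁰ K) := ha
    rw [FractionalIdeal.mem_coeIdeal] at ha'
    obtain ⟨b, hb, rfl⟩ := ha'
    exact ⟨b, hb, rfl⟩
  choose a haI ha using hrep
  obtain ⟨g₀, hg₀⟩ : T.Nonempty := Finset.card_pos.mp (by omega)
  refine ⟨(T.erase g₀).image (fun g => a g₀ - a g), ?_, ?_⟩
  · rw [Finset.card_image_of_injOn, Finset.card_erase_of_mem hg₀]
    · omega
    · intro g _ g' _ hgg
      have h1 : a g = a g' := sub_right_injective hgg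
      apply Subtype.ext
      rw [← ha g, ← ha g', h1]
  · intro y hy
    obtain ⟨g, hg, rfl⟩ := Finset.mem_image.mp hy
    rw [Finset.mem_erase] at hg
    have hmem : ∀ g' ∈ T, x - g'.1 ∈ convexBodyLT K (fun _ => c / 2) := by
      intro g' hg'
      obtain ⟨z, hz, hzx⟩ := hxT g' hg'
      have : g'.1 + z = x := hzx
      rw [← this]
      simpa using hz
    refine ⟨I.sub_mem (haI _) (haI _), ?_, ?_⟩
    · intro h0
      apply hg.1
      have h1 : a g₀ = a g := sub_eq_zero.mp h0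
      apply Subtype.ext
      rw [← ha g, ← ha g₀, h1]
    · have h1 := sub_mem_body K (hmem g hg.2) (hmem g₀ hg₀)
      have h2 : x - g.1 - (x - g₀.1) = mixedEmbedding K ((a g₀ - a g : 𝓞 K) : K) := by
        have : ((a g₀ - a g : 𝓞 K) : K) = (a g₀ : K) - (a g : K) := by push_cast; ring
        rw [this, map_sub, ha, ha]
        abel
      rw [h2] at h1
      exact (convexBodyLT_mem K (fun _ => c)).mp h1

end Pool.Agent.U516.SP
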