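import Mathlib
import Pool.Agent.U516.SP.Many
import Pool.Agent.U516.SP.Pack

/-! Sets with few sums and few products in a totally real field in which 2 splits completely. -/

set_option autoImplicit false

open NumberField NumberField.InfinitePlace Module IsDedekindDomain
open Pool.Agent.TeamU
open scoped Pointwise NNReal

namespace Pool.Agent.U516.SP

/-- geometric sums in several variables -/
theorem sum_geom {V : Type*} [Fintype V] [DecidableEq V] (r : ℕ) (k : V → ℕ) :
    ∑ k' ∈ Fintype.piFinset fun _ : V => Finset.range (r + 1),
      ((5 / 7 : ℝ)) ^ (∑ v, (max (k v) (k' v) - min (k v) (k' v))) ≤ 6 ^ Fintype.card V := by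
  classical
  have hone : ∀ (c : ℕ), ∑ j ∈ Finset.range (r + 1), ((5 / 7 : ℝ)) ^ (max c j - min c j) ≤ 6 := by
    intro c
    have hgeom : ∀ n : ℕ, ∑ j ∈ Finset.range n, ((5 / 7 : ℝ)) ^ j ≤ 7 / 2 - (5 / 7) ^ n * (7 / 2) := by
      intro n
      induction n with
      | zero => simp
      | succ n ih => rw [Finset.sum_range_succ, pow_succ]; nlinarith
    have hsplit := Finset.sum_filter_add_sum_filter_not (Finset.range (r + 1)) (fun j => j < c)
      (fun j => ((5 / 7 : ℝ)) ^ (max c j - min c j))
    rw [← hsplit]
    have h1 : ∑ j ∈ (Finset.range (r + 1)).filter (fun j => j < c),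
        ((5 / 7 : ℝ)) ^ (max c j - min c j) ≤ 5 / 2 := by
      calc ∑ j ∈ (Finset.range (r + 1)).filter (fun j => j < c),
          ((5 / 7 : ℝ)) ^ (max c j - min c j)
          ≤ ∑ j ∈ Finset.range c, ((5 / 7 : ℝ)) ^ (c - j) := by
            calc _ = ∑ j ∈ (Finset.range (r + 1)).filter (fun j => j < c),
                  ((5 / 7 : ℝ)) ^ (c - j) := by
                  refine Finset.sum_congr rfl fun j hj => ?_
                  have := (Finset.mem_filter.mp hj).2
                  rw [max_eq_left this.le, min_eq_right this.le]
              _ ≤ _ := by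
                  refine Finset.sum_le_sum_of_subset_of_nonneg ?_ (fun _ _ _ => by positivity)
                  intro j hj
                  exact Finset.mem_range.mpr (Finset.mem_filter.mp hj).2
        _ = ∑ j ∈ Finset.range c, ((5 / 7 : ℝ)) ^ (j + 1) := by
            rw [← Finset.sum_range_reflect]
            refine Finset.sum_congr rfl fun j hj => ?_
            have := Finset.mem_range.mp hj
            congr 1
            omega
        _ = (5 / 7) * ∑ j ∈ Finset.range c, ((5 / 7 : ℝ)) ^ j := by
            rw [Finset.mul_sum]
            exact Finset.sum_congr rfl fun j _ => by ring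
        _ ≤ 5 / 2 := by
            have := hgeom c
            have h2 : (0 : ℝ) < (5 / 7) ^ c := by positivity
            nlinarith
    have h2 : ∑ j ∈ (Finset.range (r + 1)).filter (fun j => ¬ j < c),
        ((5 / 7 : ℝ)) ^ (max c j - min c j) ≤ 7 / 2 := by
      calc ∑ j ∈ (Finset.range (r + 1)).filter (fun j => ¬ j < c),
          ((5 / 7 : ℝ)) ^ (max c j - min c j)
          = ∑ j ∈ (Finset.range (r + 1)).filter (fun j => ¬ j < c),
                  ((5 / 7 : ℝ)) ^ (j - c) := by
                  refine Finset.sum_congr rfl fun j hj => ?_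
                  have := not_lt.mp (Finset.mem_filter.mp hj).2
                  rw [max_eq_right this, min_eq_left this]
        _ = ∑ i ∈ ((Finset.range (r + 1)).filter (fun j => ¬ j < c)).image (fun j => j - c),
              ((5 / 7 : ℝ)) ^ i := by
            rw [Finset.sum_image]
            intro a ha b hb hab
            have h3 := not_lt.mp (Finset.mem_filter.mp ha).2
            have h4 := not_lt.mp (Finset.mem_filter.mp hb).2
            simp only at hab
            omega
        _ ≤ ∑ i ∈ Finset.range (r + 1), ((5 / 7 : ℝ)) ^ i := by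
            refine Finset.sum_le_sum_of_subset_of_nonneg ?_ (fun _ _ _ => by positivity)
            intro i hi
            obtain ⟨j, hj, rfl⟩ := Finset.mem_image.mp hi
            have := Finset.mem_range.mp (Finset.mem_filter.mp hj).1
            exact Finset.mem_range.mpr (by omega)
        _ ≤ 7 / 2 := by
            have := hgeom (r + 1)
            have h2 : (0 : ℝ) < (5 / 7) ^ (r + 1) := by positivity
            nlinarith
    linarith
  calc _ = ∑ k' ∈ Fintype.piFinset fun _ : V => Finset.range (r + 1),
            ∏ v, ((5 / 7 : ℝ)) ^ (max (k v) (k' v) - min (k v) (k' v)) := by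
          refine Finset.sum_congr rfl fun k' _ => ?_
          rw [Finset.prod_pow_eq_pow_sum]
      _ = ∏ v, ∑ j ∈ Finset.range (r + 1), ((5 / 7 : ℝ)) ^ (max (k v) j - min (k v) j) := by
          rw [Finset.prod_univ_sum]
      _ ≤ ∏ _v : V, (6 : ℝ) := Finset.prod_le_prod
            (fun v _ => Finset.sum_nonneg fun _ _ => by positivity) (fun v _ => hone (k v))
      _ = 6 ^ Fintype.card V := by simp

/-- a large slice of the box -/
theorem exists_slice {V : Type*} [Fintype V] [DecidableEq V] (r : ℕ) :
    ∃ s : ℕ, s ≤ r * Fintype.card V ∧ (r + 1) ^ Fintype.card V ≤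
      (r * Fintype.card V + 1) * ((Fintype.piFinset fun _ : V => Finset.range (r + 1)).filter
        (fun k => ∑ v, k v = s)).card := by
  classical
  set box := Fintype.piFinset fun _ : V => Finset.range (r + 1) with hbox
  have hcard : box.card = (r + 1) ^ Fintype.card V := by
    simp only [hbox, Fintype.card_piFinset, Finset.card_range, Finset.prod_const,
      Finset.card_univ]
  have hmaps : ∀ k ∈ box, (∑ v, k v) ∈ Finset.range (r * Fintype.card V + 1) := by
    intro k hk
    rw [Finset.mem_range]
    have h1 : ∑ v, k v ≤ ∑ _v : V, r := Finset.sum_le_sum fun v _ => by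
      have := Finset.mem_range.mp (Fintype.mem_piFinset.mp hk v)
      omega
    rw [Finset.sum_const, Finset.card_univ, smul_eq_mul, mul_comm] at h1
    omega
  by_contra hcon
  push Not at hcon
  have h1 : box.card = ∑ s ∈ Finset.range (r * Fintype.card V + 1),
      (box.filter (fun k => ∑ v, k v = s)).card := Finset.card_eq_sum_card_fiberwise hmaps
  have h2 : (r * Fintype.card V + 1) * box.card < (r * Fintype.card V + 1) * box.card := by
    calc (r * Fintype.card V + 1) * box.card
        = ∑ s ∈ Finset.range (r * Fintype.card V + 1), (r * Fintype.card V + 1) *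
          (box.filter (fun k => ∑ v, k v = s)).card := by rw [← Finset.mul_sum, ← h1]
      _ < ∑ s ∈ Finset.range (r * Fintype.card V + 1), (r + 1) ^ Fintype.card V := by
          refine Finset.sum_lt_sum_of_nonempty ⟨0, Finset.mem_range.mpr (by omega)⟩ ?_
          intro s hs
          exact hcon s (by have := Finset.mem_range.mp hs; omega)
      _ = (r * Fintype.card V + 1) * box.card := by
          rw [Finset.sum_const, Finset.card_range, smul_eq_mul, hcard]
  exact lt_irrefl _ h2

end Pool.Agent.U516.SP
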