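import Mathlib
import Pool.Agent.U516.SP.Two
import Pool.Agent.U516.SP.Divs

/-! Sets with few iterated sums and products in a totally real field in which 2 splits completely. -/

set_option autoImplicit false

open NumberField NumberField.InfinitePlace Module IsDedekindDomain
open Pool.Agent.TeamU
open scoped NNReal

namespace Pool.Agent.U516.SP

/-- `k`-fold sums -/
def sumk {R : Type} [AddCommMonoid R] [DecidableEq R] (k : ℕ) (A : Finset R) : Finset R :=
  (Fintype.piFinset (fun _ : Fin k => A)).image (fun f : Fin k → R => ∑ i, f i)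

/-- `k`-fold products -/
def prodk {R : Type} [CommMonoid R] [DecidableEq R] (k : ℕ) (A : Finset R) : Finset R :=
  (Fintype.piFinset (fun _ : Fin k => A)).image (fun f : Fin k → R => ∏ i, f i)

section main
variable {L : Type} [Field L] [NumberField L]

theorem coreK [DecidableEq (𝓞 L)] (hr : IsTotallyReal L) (h2 : TwoSplit L) (e r : ℕ)
    (he : √|(discr L : ℝ)| < ((2 : ℝ) ^ e) ^ finrank ℚ L) :
    ∃ A : Finset (𝓞 L),
      ((r : ℝ) + 1) ^ finrank ℚ L ≤ (r * finrank ℚ L + 1) *
        ((2 * 4 ^ e + 2) * 4 ^ e * (3 * 2 ^ e)) ^ finrank ℚ L * A.card ∧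
      (∀ k : ℕ, 1 ≤ k → ((sumk k A).card : ℝ) ≤ (4 * k * 2 ^ (r + e)) ^ finrank ℚ L) ∧
      (∀ k : ℕ, 1 ≤ k → (prodk k A).card ≤ ((k * r + 1) * k * 169) ^ finrank ℚ L) := by
  classical
  set d := finrank ℚ L with hddef
  have hdpos : 0 < d := finrank_pos
  have hd0 : (d : ℝ) ≠ 0 := by exact_mod_cast hdpos.ne'
  -- dyadic primes
  let V : Type := {v : HeightOneSpectrum (𝓞 L) // (2 : 𝓞 L) ∈ v.asIdeal}
  have hVfin : Finite V := by
    have h1 := card_dyadic (M := L) h2
    have h3 : {v : HeightOneSpectrum (𝓞 L) | (2 : 𝓞 L) ∈ v.asIdeal}.Finite := by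
      by_contra h
      rw [Set.Infinite.ncard h] at h1
      omega
    exact h3
  have hVft : Fintype V := Fintype.ofFinite V
  have hVcard : Fintype.card V = d := by
    rw [← Nat.card_eq_fintype_card]
    exact card_dyadic (M := L) h2
  let P : V → HeightOneSpectrum (𝓞 L) := fun v => v.1
  have hPinj : Function.Injective P := Subtype.val_injective
  have hPcard : ∀ v, Nat.card (𝓞 L ⧸ (P v).asIdeal) = 2 := fun v => (h2 v.1 v.2).1
  let I : (V → ℕ) → Ideal (𝓞 L) := fun k => ∏ v, (P v).asIdeal ^ k v
  have hIne : ∀ k, I k ≠ ⊥ := by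
    intro k
    rw [← Ideal.zero_eq_bot]
    refine Finset.prod_ne_zero_iff.mpr fun i _ => pow_ne_zero _ ?_
    rw [Ideal.zero_eq_bot]
    exact (P i).ne_bot
  have hIN : ∀ k, Ideal.absNorm (I k) = 2 ^ ∑ v, k v := fun k => absNorm_prod P hPcard k
  -- injectivity of `I`
  have hIinj : Function.Injective I := by
    have key : ∀ k k' : V → ℕ, I k = I k' → ∀ v, k' v ≤ k v := by
      intro k k' h
      set M : V → ℕ := fun v => max (k v) (k' v) with hM
      have h1 : I M ∣ I k := by
        rw [Ideal.dvd_iff_le]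
        intro x hx
        have hx' : x ∈ I k' := by rw [← h]; exact hx
        have h3 : ∀ v, x ∈ (P v).asIdeal ^ (M v) := by
          intro v
          rcases le_total (k v) (k' v) with h4 | h4
          · simp only [hM]; rw [max_eq_right h4]
            exact mem_pow_of_mem_prod P k' x hx' v
          · simp only [hM]; rw [max_eq_left h4]
            exact mem_pow_of_mem_prod P k x hx v
        exact Ideal.dvd_span_singleton.mp (prod_dvd_of_mem P hPinj M x h3)
      have h3 := Nat.le_of_dvd (by rw [hIN]; positivity) (map_dvd Ideal.absNorm h1)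
      rw [hIN, hIN, Nat.pow_le_pow_iff_right (by norm_num)] at h3
      intro v
      by_contra hcon
      push Not at hcon
      have h4 : ∑ v, k v < ∑ v, M v :=
        Finset.sum_lt_sum (fun v _ => le_max_left _ _) ⟨v, Finset.mem_univ _, by
          simp only [hM]; exact lt_of_lt_of_le hcon (le_max_right _ _)⟩
      omega
    intro k k' h
    funext v
    exact le_antisymm (key k' k h.symm v) (key k k' h v)
  -- the slice
  obtain ⟨s, hsle, hslice⟩ := exists_slice (V := V) r
  rw [hVcard] at hsle hslice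
  set box := Fintype.piFinset fun _ : V => Finset.range (r + 1) with hbox
  set sl := box.filter (fun k => ∑ v, k v = s) with hsl
  have hslbox : ∀ k ∈ sl, ∀ v, k v ≤ r := by
    intro k hk v
    have := Fintype.mem_piFinset.mp (Finset.mem_filter.mp hk).1 v
    rw [Finset.mem_range] at this
    omega
  have hslsum : ∀ k ∈ sl, ∑ v, k v = s := fun k hk => (Finset.mem_filter.mp hk).2
  have hslne : sl.Nonempty := by
    rw [← Finset.card_pos]
    by_contra h
    have h0 : sl.card = 0 := by omega
    rw [h0, mul_zero] at hslice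
    have : 0 < (r + 1) ^ d := by positivity
    omega
  -- the radius
  let ρ : ℝ := (2 : ℝ) ^ ((s : ℝ) / d)
  have hρ0 : 0 < ρ := Real.rpow_pos_of_pos (by norm_num) _
  have hρd : ρ ^ d = 2 ^ s := by
    rw [← Real.rpow_natCast, ← Real.rpow_mul (by norm_num), div_mul_cancel₀ _ hd0,
      Real.rpow_natCast]
  have hρr : ρ ≤ 2 ^ r := by
    rw [← Real.rpow_natCast]
    refine Real.rpow_le_rpow_of_exponent_le (by norm_num) ?_
    rw [div_le_iff₀ (by exact_mod_cast hdpos)]
    exact_mod_cast hsle
  let c : ℝ := 2 ^ e * ρ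
  have hc0 : 0 < c := by positivity
  have hcd : c ^ d = (2 ^ e) ^ d * 2 ^ s := by simp only [c]; rw [mul_pow, hρd]
  have hexists : ∀ k : V → ℕ, ∃ x : 𝓞 L, k ∈ sl → (x ∈ I k ∧ x ≠ 0 ∧
      ∀ w : InfinitePlace L, w (x : L) < c) := by
    intro k
    by_cases hk : k ∈ sl
    · obtain ⟨x, hx, hx0, hxw⟩ := exists_small_mem_ideal L (I k) (hIne k) ⟨c, hc0.le⟩ (by
        show _ < c ^ finrank ℚ L
        rw [← hddef, hcd, hIN, hslsum k hk]
        push_cast
        rw [mul_comm]
        exact mul_lt_mul_of_pos_right he (by positivity))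
      exact ⟨x, fun _ => ⟨hx, hx0, fun w => hxw w⟩⟩
    · exact ⟨0, fun h => absurd h hk⟩
  choose a ha using hexists
  -- cofactors
  have hcof : ∀ k : V → ℕ, ∃ b : Ideal (𝓞 L), k ∈ sl → Ideal.span {a k} = I k * b := by
    intro k
    by_cases hk : k ∈ sl
    · obtain ⟨b, hb⟩ := Ideal.dvd_span_singleton.mpr (ha k hk).1
      exact ⟨b, fun _ => hb⟩
    · exact ⟨⊥, fun h => absurd h hk⟩
  choose b hb using hcof
  have hane : ∀ k ∈ sl, Ideal.span {a k} ≠ ⊥ := fun k hk => by
    rw [Ne, Ideal.span_singleton_eq_bot]; exact (ha k hk).2.1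
  have hbne : ∀ k ∈ sl, b k ≠ ⊥ := by
    intro k hk h
    have := hb k hk
    rw [h, Ideal.mul_bot] at this
    exact hane k hk this
  have haN : ∀ k ∈ sl, (Ideal.absNorm (Ideal.span {a k}) : ℝ) ≤ c ^ d := fun k hk =>
    absNorm_span_le (a k) c (fun w => ((ha k hk).2.2 w).le)
  have hbN : ∀ k ∈ sl, (Ideal.absNorm (b k) : ℝ) ≤ ((2 : ℝ) ^ e) ^ d := by
    intro k hk
    have h1 := haN k hk
    rw [hb k hk, map_mul, hIN, hslsum k hk, hcd] at h1
    push_cast at h1
    rw [mul_comm] at h1
    exact le_of_mul_le_mul_right h1 (by positivity)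
  obtain ⟨F, hF1, hF2⟩ := ideals_le hr e he
  rw [← hddef] at hF1 hF2
  -- logarithms
  have hwpos : ∀ k ∈ sl, ∀ w : InfinitePlace L, 0 < w (a k : L) := by
    intro k hk w
    refine InfinitePlace.pos_iff.mpr fun h => (ha k hk).2.1 ?_
    exact RingOfIntegers.ext (h.trans (map_zero _).symm)
  let t : (V → ℕ) → InfinitePlace L → ℕ := fun k w => ⌊Real.log (c / w (a k : L))⌋₊
  have hlog0 : ∀ k ∈ sl, ∀ w : InfinitePlace L, 0 ≤ Real.log (c / w (a k : L)) := by
    intro k hk w
    refine Real.log_nonneg ?_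
    rw [one_le_div (hwpos k hk w)]
    exact ((ha k hk).2.2 w).le
  have hcardw : Fintype.card (InfinitePlace L) = d := by
    rw [hddef, ← InfinitePlace.sum_mult_eq (K := L), Fintype.card_eq_sum_ones]
    refine Finset.sum_congr rfl fun w _ => ?_
    rw [mult, if_pos (hr.isReal w)]
  have hsumlog : ∀ k ∈ sl, ∑ w : InfinitePlace L, t k w ≤ e * d := by
    intro k hk
    have h1 : ∏ w : InfinitePlace L, w (a k : L) = (Ideal.absNorm (Ideal.span {a k}) : ℝ) := by
      rw [Ideal.absNorm_span_singleton]
      have h3 := InfinitePlace.prod_eq_abs_norm (a k : L)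
      have h4 : ∏ w : InfinitePlace L, w (a k : L) ^ w.mult = ∏ w : InfinitePlace L, w (a k : L) := by
        refine Finset.prod_congr rfl fun w _ => ?_
        rw [mult, if_pos (hr.isReal w), pow_one]
      rw [← h4, h3]
      have h2 : ((Algebra.norm ℤ (a k)).natAbs : ℝ) = |((Algebra.norm ℚ (a k : L) : ℚ) : ℝ)| := by
        rw [← Algebra.coe_norm_int (a k), Nat.cast_natAbs]
        push_cast
        rfl
      rw [h2]
      push_cast
      rfl
    have h3 : (2 : ℝ) ^ s ≤ (Ideal.absNorm (Ideal.span {a k}) : ℝ) := by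
      have h4 := Nat.le_of_dvd (Nat.pos_of_ne_zero (by
        rw [Ne, Ideal.absNorm_eq_zero_iff]; exact hane k hk))
        (map_dvd Ideal.absNorm (Ideal.dvd_span_singleton.mpr (ha k hk).1))
      rw [hIN, hslsum k hk] at h4
      exact_mod_cast h4
    have h5 : ∑ w : InfinitePlace L, Real.log (c / w (a k : L)) ≤ e * d := by
      have h6 : ∑ w : InfinitePlace L, Real.log (c / w (a k : L)) =
          Real.log (∏ w : InfinitePlace L, (c / w (a k : L))) := by
        rw [Real.log_prod]
        intro w _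
        exact (div_pos hc0 (hwpos k hk w)).ne'
      rw [h6, Finset.prod_div_distrib, h1, Finset.prod_const, Finset.card_univ, hcardw, hcd]
      have h7 : ((2 : ℝ) ^ e) ^ d * 2 ^ s / (Ideal.absNorm (Ideal.span {a k}) : ℝ) ≤ (2 ^ e) ^ d := by
        rw [div_le_iff₀ (lt_of_lt_of_le (by positivity) h3)]
        exact mul_le_mul_of_nonneg_left h3 (by positivity)
      have h8 : 0 < ((2 : ℝ) ^ e) ^ d * 2 ^ s / (Ideal.absNorm (Ideal.span {a k}) : ℝ) :=
        div_pos (by positivity) (lt_of_lt_of_le (by positivity) h3)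
      calc Real.log (((2 : ℝ) ^ e) ^ d * 2 ^ s / (Ideal.absNorm (Ideal.span {a k}) : ℝ))
          ≤ Real.log ((2 ^ e) ^ d) := Real.log_le_log h8 h7
        _ = (e * d) * Real.log 2 := by rw [Real.log_pow, Real.log_pow]; ring
        _ ≤ (e * d) * 1 := by
            refine mul_le_mul_of_nonneg_left ?_ (by positivity)
            have := Real.log_two_lt_d9
            linarith
        _ = e * d := mul_one _
    have h9 : ((∑ w : InfinitePlace L, t k w : ℕ) : ℝ) ≤ e * d := by
      push_cast
      refine le_trans (Finset.sum_le_sum fun w _ => ?_) h5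
      exact Nat.floor_le (hlog0 k hk w)
    exact_mod_cast h9
  -- the set of the vectors `t`
  let TS : Finset (InfinitePlace L → ℕ) :=
    ((Fintype.piFinset fun _ : InfinitePlace L => Finset.range (e * d + 1)).filter
      (fun k' => ∑ v, (max ((fun _ => 0 : InfinitePlace L → ℕ) v) (k' v) -
        min ((fun _ => 0 : InfinitePlace L → ℕ) v) (k' v)) ≤ e * d))
  have hTS : (TS.card : ℝ) ≤ (3 * 2 ^ e) ^ d := by
    have h1 := card_close (V := InfinitePlace L) (e * d) (e * d) (fun _ => 0)
    rw [hcardw] at h1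
    rw [mul_pow, ← pow_mul]
    exact_mod_cast h1
  have hmemTS : ∀ k ∈ sl, t k ∈ TS := by
    intro k hk
    have h1 := hsumlog k hk
    simp only [TS, Finset.mem_filter, Fintype.mem_piFinset, Finset.mem_range]
    refine ⟨fun w => ?_, ?_⟩
    · have h3 : t k w ≤ ∑ w : InfinitePlace L, t k w :=
        Finset.single_le_sum (f := t k) (fun _ _ => Nat.zero_le _) (Finset.mem_univ w)
      omega
    · simpa using h1
  -- pigeonhole
  let g : (V → ℕ) → Ideal (𝓞 L) × (InfinitePlace L → ℕ) := fun k => (b k, t k)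
  obtain ⟨⟨β, τ⟩, hβT, hβmax⟩ := Finset.exists_max_image (sl.image g)
    (fun y => (sl.filter (fun k => g k = y)).card) (hslne.image g)
  set G := sl.filter (fun k => g k = (β, τ)) with hG
  have himg : ((sl.image g).card : ℝ) ≤ ((2 * 4 ^ e + 2) * 4 ^ e * (3 * 2 ^ e)) ^ d := by
    have h1 : sl.image g ⊆ F ×ˢ TS := by
      intro y hy
      obtain ⟨k, hk, rfl⟩ := Finset.mem_image.mp hy
      exact Finset.mem_product.mpr ⟨hF1 _ (hbne k hk) (hbN k hk), hmemTS k hk⟩
    have h3 := Finset.card_le_card h1
    rw [Finset.card_product] at h3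
    calc ((sl.image g).card : ℝ) ≤ F.card * TS.card := by exact_mod_cast h3
      _ ≤ ((2 * 4 ^ e + 2) * 4 ^ e) ^ d * (3 * 2 ^ e) ^ d :=
          mul_le_mul hF2 hTS (by positivity) (by positivity)
      _ = _ := by rw [← mul_pow]
  have hGcard : (sl.card : ℝ) ≤ G.card * ((2 * 4 ^ e + 2) * 4 ^ e * (3 * 2 ^ e)) ^ d := by
    have h1 : sl.card ≤ G.card * (sl.image g).card := Finset.card_le_mul_card_image sl G.card hβmax
    calc (sl.card : ℝ) ≤ G.card * (sl.image g).card := by exact_mod_cast h1
      _ ≤ _ := mul_le_mul_of_nonneg_left himg (Nat.cast_nonneg _)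
  have hGsl : ∀ k ∈ G, k ∈ sl ∧ b k = β ∧ t k = τ := by
    intro k hk
    have h1 := Finset.mem_filter.mp hk
    have h3 : (b k, t k) = (β, τ) := h1.2
    rw [Prod.mk.injEq] at h3
    exact ⟨h1.1, h3.1, h3.2⟩
  have hainj : Set.InjOn a G := by
    intro k hk k' hk' h
    have h1 := hGsl k hk
    have h3 := hGsl k' hk'
    have h4 := hb k h1.1
    have h5 := hb k' h3.1
    rw [h1.2.1] at h4
    rw [h3.2.1, ← h, h4] at h5
    have h6 : β ≠ 0 := by
      rw [Ideal.zero_eq_bot, ← h1.2.1]
      exact hbne k h1.1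
    exact hIinj (mul_right_cancel₀ h6 h5)
  have hamem : ∀ x ∈ G.image a, ∃ k ∈ sl, b k = β ∧ t k = τ ∧ a k = x := by
    intro x hx
    obtain ⟨k, hk, rfl⟩ := Finset.mem_image.mp hx
    obtain ⟨h1, h3, h4⟩ := hGsl k hk
    exact ⟨k, h1, h3, h4, rfl⟩
  refine ⟨G.image a, ?_, ?_, ?_⟩
  · rw [Finset.card_image_of_injOn hainj]
    calc ((r : ℝ) + 1) ^ d ≤ (r * d + 1) * sl.card := by exact_mod_cast hslice
      _ ≤ (r * d + 1) * (G.card * ((2 * 4 ^ e + 2) * 4 ^ e * (3 * 2 ^ e)) ^ d) :=
          mul_le_mul_of_nonneg_left hGcard (by positivity)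
      _ = _ := by ring
  · -- sums
    intro k hk
    have hk1 : (1 : ℝ) ≤ k := by exact_mod_cast hk
    have h1 := card_pack hr (⊤ : Ideal (𝓞 L)) 1 (k * c) one_pos (by positivity) (by simp)
      (sumk k (G.image a)) (by
        intro z hz
        obtain ⟨f, hf, rfl⟩ := Finset.mem_image.mp hz
        rw [Fintype.mem_piFinset] at hf
        refine ⟨Submodule.mem_top, fun w => ?_⟩
        have e3 : ((∑ i, f i : 𝓞 L) : L) = ∑ i, (f i : L) := by push_cast; rfl
        rw [e3]
        have e4 : w (∑ i, (f i : L)) ≤ ∑ i, w (f i : L) := w.1.sum_le _ _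
        refine e4.trans ?_
        calc ∑ i, w (f i : L) ≤ ∑ _i : Fin k, c := Finset.sum_le_sum fun i _ => by
              obtain ⟨k', hk', -, -, h5⟩ := hamem _ (hf i)
              rw [← h5]
              exact ((ha k' hk').2.2 w).le
          _ = k * c := by simp)
    rw [← hddef, div_one] at h1
    refine h1.trans (pow_le_pow_left₀ (by positivity) ?_ _)
    have h3 : c ≤ 2 ^ (r + e) := by
      simp only [c]
      rw [pow_add, mul_comm]
      exact mul_le_mul_of_nonneg_right hρr (by positivity)
    have h4 : (1 : ℝ) ≤ 2 ^ (r + e) := one_le_pow₀ (by norm_num)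
    nlinarith
  · -- products
    intro k hk
    have hk0 : 0 < k := hk
    let u : 𝓞 L → InfinitePlace L → ℕ := fun x w =>
      ⌊(k : ℝ) * Real.log c - k * τ w - Real.log (w (x : L))⌋₊
    -- data of an element
    have hdata : ∀ x ∈ prodk k (G.image a), ∃ f : Fin k → (V → ℕ), (∀ i, f i ∈ sl ∧ b (f i) = β ∧
        t (f i) = τ) ∧ x = ∏ i, a (f i) := by
      intro x hx
      obtain ⟨f, hf, rfl⟩ := Finset.mem_image.mp hx
      rw [Fintype.mem_piFinset] at hf
      have h1 : ∀ i, ∃ k' : V → ℕ, (k' ∈ sl ∧ b k' = β ∧ t k' = τ) ∧ a k' = f i := by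
        intro i
        obtain ⟨k', h3, h4, h5, h6⟩ := hamem _ (hf i)
        exact ⟨k', ⟨h3, h4, h5⟩, h6⟩
      choose q hq1 hq2 using h1
      exact ⟨q, hq1, by simp only [hq2]⟩
    have hspan : ∀ (f : Fin k → (V → ℕ)), (∀ i, f i ∈ sl ∧ b (f i) = β ∧ t (f i) = τ) →
        Ideal.span {∏ i, a (f i)} = I (fun v => ∑ i, f i v) * β ^ k := by
      intro f hf
      rw [← Ideal.prod_span_singleton]
      have h1 : ∀ i ∈ (Finset.univ : Finset (Fin k)), Ideal.span {a (f i)} = I (f i) * β := by
        intro i _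
        rw [hb _ (hf i).1, (hf i).2.1]
      rw [Finset.prod_congr rfl h1, Finset.prod_mul_distrib, Finset.prod_const, Finset.card_univ,
        Fintype.card_fin]
      congr 1
      simp only [I]
      rw [Finset.prod_comm]
      refine Finset.prod_congr rfl fun v _ => ?_
      rw [Finset.prod_pow_eq_pow_sum]
    have hlogx : ∀ x ∈ prodk k (G.image a), ∀ w : InfinitePlace L, 0 < w (x : L) ∧
        0 ≤ (k : ℝ) * Real.log c - k * τ w - Real.log (w (x : L)) ∧
        (k : ℝ) * Real.log c - k * τ w - Real.log (w (x : L)) < k := by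
      intro x hx w
      obtain ⟨f, hf, rfl⟩ := hdata x hx
      have e3 : ((∏ i, a (f i) : 𝓞 L) : L) = ∏ i, (a (f i) : L) := by push_cast; rfl
      have e4 : w (∏ i, (a (f i) : L)) = ∏ i, w (a (f i) : L) := map_prod w _ _
      have hpos : 0 < ∏ i, w (a (f i) : L) := Finset.prod_pos fun i _ => hwpos _ (hf i).1 w
      rw [e3, e4]
      have e5 : Real.log (∏ i, w (a (f i) : L)) = ∑ i, Real.log (w (a (f i) : L)) :=
        Real.log_prod fun i _ => (hwpos _ (hf i).1 w).ne'
      have e6 : (k : ℝ) * Real.log c - k * τ w - Real.log (∏ i, w (a (f i) : L)) =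
          ∑ i : Fin k, (Real.log (c / w (a (f i) : L)) - τ w) := by
        rw [e5, Finset.sum_sub_distrib]
        have : ∀ i ∈ (Finset.univ : Finset (Fin k)), Real.log (c / w (a (f i) : L)) =
            Real.log c - Real.log (w (a (f i) : L)) := fun i _ =>
          Real.log_div hc0.ne' (hwpos _ (hf i).1 w).ne'
        rw [Finset.sum_congr rfl this, Finset.sum_sub_distrib]
        simp
        ring
      have e7 : ∀ i, 0 ≤ Real.log (c / w (a (f i) : L)) - τ w ∧
          Real.log (c / w (a (f i) : L)) - τ w < 1 := by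
        intro i
        have h1 : τ w = ⌊Real.log (c / w (a (f i) : L))⌋₊ := by rw [← (hf i).2.2]
        rw [h1]
        have h3 := Nat.floor_le (hlog0 _ (hf i).1 w)
        have h4 := Nat.lt_floor_add_one (Real.log (c / w (a (f i) : L)))
        constructor <;> linarith
      refine ⟨hpos, ?_, ?_⟩
      · rw [e6]
        exact Finset.sum_nonneg fun i _ => (e7 i).1
      · rw [e6]
        have hne : (Finset.univ : Finset (Fin k)).Nonempty := ⟨⟨0, hk0⟩, Finset.mem_univ _⟩
        calc ∑ i : Fin k, (Real.log (c / w (a (f i) : L)) - τ w) < ∑ _i : Fin k, (1 : ℝ) :=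
              Finset.sum_lt_sum_of_nonempty hne fun i _ => (e7 i).2
          _ = k := by simp
    let Φ : 𝓞 L → Ideal (𝓞 L) × (InfinitePlace L → ℕ) := fun x => (Ideal.span {x}, u x)
    let box2 := Fintype.piFinset fun _ : V => Finset.range (k * r + 1)
    have hΦimg : ((prodk k (G.image a)).image Φ).card ≤ (k * r + 1) ^ d * k ^ d := by
      have h1 : (prodk k (G.image a)).image Φ ⊆ (box2.image fun v => I v * β ^ k) ×ˢ
          (Fintype.piFinset fun _ : InfinitePlace L => Finset.range k) := by
        intro y hy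
        obtain ⟨x, hx, rfl⟩ := Finset.mem_image.mp hy
        rw [Finset.mem_product]
        constructor
        · obtain ⟨f, hf, hxf⟩ := hdata x hx
          refine Finset.mem_image.mpr ⟨fun v => ∑ i, f i v, ?_, ?_⟩
          · simp only [box2, Fintype.mem_piFinset, Finset.mem_range]
            intro v
            have : ∑ i, f i v ≤ ∑ _i : Fin k, r := Finset.sum_le_sum fun i _ => hslbox _ (hf i).1 v
            simp only [Finset.sum_const, Finset.card_univ, Fintype.card_fin, smul_eq_mul] at this
            omega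
          · simp only [Φ]
            rw [hxf, hspan f hf]
        · simp only [Fintype.mem_piFinset, Finset.mem_range, Φ, u]
          intro w
          obtain ⟨-, h3, h4⟩ := hlogx x hx w
          exact (Nat.floor_lt h3).mpr h4
      refine (Finset.card_le_card h1).trans ?_
      rw [Finset.card_product, Fintype.card_piFinset]
      simp only [Finset.card_range, Finset.prod_const, Finset.card_univ, hcardw]
      refine Nat.mul_le_mul_right _ (Finset.card_image_le.trans ?_)
      simp only [box2, Fintype.card_piFinset, Finset.card_range, Finset.prod_const,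
          Finset.card_univ, hVcard]
      exact le_rfl
    have hfib : ∀ y ∈ (prodk k (G.image a)).image Φ,
        ((prodk k (G.image a)).filter (fun x => Φ x = y)).card ≤ 169 ^ d := by
      intro y hy
      obtain ⟨x₀, hx₀, rfl⟩ := Finset.mem_image.mp hy
      set Fb := (prodk k (G.image a)).filter (fun x => Φ x = Φ x₀) with hFb
      have hx00 : (x₀ : L) ≠ 0 := by
        obtain ⟨w⟩ : Nonempty (InfinitePlace L) := inferInstance
        intro h
        have h1 := (hlogx x₀ hx₀ w).1
        rw [h, map_zero] at h1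
        exact lt_irrefl _ h1
      have h1 := card_le_of_bounded (Fb.image (fun x : 𝓞 L => (x : L) / (x₀ : L))) 3 (by
        intro z hz
        obtain ⟨x, hx, rfl⟩ := Finset.mem_image.mp hz
        obtain ⟨hx1, hx3⟩ := Finset.mem_filter.mp hx
        have h3 : Ideal.span {x} = Ideal.span {x₀} := congrArg Prod.fst hx3
        rw [Ideal.span_singleton_eq_span_singleton] at h3
        obtain ⟨v, hv⟩ := h3.symm
        have h4 : (x : L) / (x₀ : L) = ((v : 𝓞 L) : L) := by
          rw [← hv]
          rw [div_eq_iff hx00]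
          push_cast
          ring
        rw [h4]
        exact RingOfIntegers.isIntegral_coe _) (by
        intro z hz φ
        obtain ⟨x, hx, rfl⟩ := Finset.mem_image.mp hz
        obtain ⟨hx1, hx3⟩ := Finset.mem_filter.mp hx
        have h3 : u x = u x₀ := congrArg Prod.snd hx3
        obtain ⟨p1, p2, p3⟩ := hlogx x hx1 (InfinitePlace.mk φ)
        obtain ⟨q1, q2, q3⟩ := hlogx x₀ hx₀ (InfinitePlace.mk φ)
        have h4 := congrFun h3 (InfinitePlace.mk φ)
        simp only [u] at h4
        have h5 := Nat.floor_le p2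
        have h6 := Nat.lt_floor_add_one ((k : ℝ) * Real.log c - k * τ (InfinitePlace.mk φ) -
          Real.log ((InfinitePlace.mk φ) (x₀ : L)))
        rw [← h4] at h6
        have h7 : Real.log ((InfinitePlace.mk φ) (x : L)) <
            Real.log ((InfinitePlace.mk φ) (x₀ : L)) + 1 := by linarith
        have h8 : (InfinitePlace.mk φ) (x : L) / (InfinitePlace.mk φ) (x₀ : L) ≤ 3 := by
          rw [div_le_iff₀ q1]
          have h9 : (InfinitePlace.mk φ) (x : L) <
              Real.exp (Real.log ((InfinitePlace.mk φ) (x₀ : L)) + 1) := by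
            rw [← Real.log_lt_iff_lt_exp p1]; exact h7
          rw [Real.exp_add, Real.exp_log q1] at h9
          have h10 : Real.exp 1 < 3 := lt_trans Real.exp_one_lt_d9 (by norm_num)
          nlinarith
        rw [map_div₀, norm_div]
        rw [InfinitePlace.apply, InfinitePlace.apply] at h8
        exact_mod_cast h8)
      rw [Finset.card_image_of_injOn] at h1
      · rw [← hddef] at h1
        refine h1.trans (le_of_eq ?_)
        norm_num
      · intro x _ x' _ hxx
        have h3 : (x : L) = x' := by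
          have h4 : (x : L) / x₀ = (x' : L) / x₀ := hxx
          field_simp at h4
          exact h4
        exact RingOfIntegers.ext h3
    calc (prodk k (G.image a)).card ≤ 169 ^ d * ((prodk k (G.image a)).image Φ).card :=
          Finset.card_le_mul_card_image _ _ hfib
      _ ≤ 169 ^ d * ((k * r + 1) ^ d * k ^ d) := Nat.mul_le_mul_left _ hΦimg
      _ = _ := by rw [← mul_pow, ← mul_pow]; congr 1; ring

end main

end Pool.Agent.U516.SP
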