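import Mathlib
import Pool.Agent.U516.SP.CoreK
import Pool.Agent.TeamU.G8

/-! Iterated sums and products of sets of real numbers (from the tower). -/

set_option autoImplicit false

open NumberField NumberField.InfinitePlace Module IsDedekindDomain
open Pool.Agent.TeamU Filter Topology
open scoped NNReal

namespace Pool.Agent.U516.SP

/-- subsets and images -/
theorem to_realK {L : Type} [Field L] [NumberField L] [DecidableEq (𝓞 L)] (hr : IsTotallyReal L)
    (A : Finset (𝓞 L)) (n : ℕ) (hn : n ≤ A.card) :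
    ∃ B : Finset ℝ, B.card = n ∧ (∀ b ∈ B, IsIntegral ℤ b) ∧
      ∀ k : ℕ, (sumk k B).card ≤ (sumk k A).card ∧ (prodk k B).card ≤ (prodk k A).card := by
  classical
  obtain ⟨A', hA', hcard⟩ := Finset.exists_subset_card_eq hn
  obtain ⟨w⟩ : Nonempty (InfinitePlace L) := inferInstance
  let φ : 𝓞 L →+* ℝ := (embedding_of_isReal (hr.isReal w)).comp (algebraMap (𝓞 L) L)
  have hφ : Function.Injective φ := by
    refine (embedding_of_isReal (hr.isReal w)).injective.comp ?_
    exact RingOfIntegers.coe_injective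
  have hrep : ∀ b : ℝ, ∃ x : 𝓞 L, b ∈ A'.image φ → x ∈ A' ∧ φ x = b := by
    intro b
    by_cases hb : b ∈ A'.image φ
    · obtain ⟨x, hx, rfl⟩ := Finset.mem_image.mp hb
      exact ⟨x, fun _ => ⟨hx, rfl⟩⟩
    · exact ⟨0, fun h => absurd h hb⟩
  choose y hy using hrep
  refine ⟨A'.image φ, by rw [Finset.card_image_of_injective _ hφ, hcard], ?_, fun k => ⟨?_, ?_⟩⟩
  · intro b hb
    obtain ⟨x, -, rfl⟩ := Finset.mem_image.mp hb
    exact map_isIntegral_int (embedding_of_isReal (hr.isReal w)) (RingOfIntegers.isIntegral_coe x)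
  · refine (Finset.card_le_card (t := (sumk k A).image φ) ?_).trans Finset.card_image_le
    intro z hz
    obtain ⟨f, hf, rfl⟩ := Finset.mem_image.mp hz
    rw [Fintype.mem_piFinset] at hf
    refine Finset.mem_image.mpr ⟨∑ i, y (f i), Finset.mem_image.mpr ⟨fun i => y (f i), ?_, rfl⟩, ?_⟩
    · rw [Fintype.mem_piFinset]
      exact fun i => hA' (hy _ (hf i)).1
    · rw [map_sum]
      exact Finset.sum_congr rfl fun i _ => (hy _ (hf i)).2
  · refine (Finset.card_le_card (t := (prodk k A).image φ) ?_).trans Finset.card_image_le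
    intro z hz
    obtain ⟨f, hf, rfl⟩ := Finset.mem_image.mp hz
    rw [Fintype.mem_piFinset] at hf
    refine Finset.mem_image.mpr ⟨∏ i, y (f i), Finset.mem_image.mpr ⟨fun i => y (f i), ?_, rfl⟩, ?_⟩
    · rw [Fintype.mem_piFinset]
      exact fun i => hA' (hy _ (hf i)).1
    · rw [map_prod]
      exact Finset.prod_congr rfl fun i _ => (hy _ (hf i)).2

theorem exists_d1 (R : ℝ) : ∃ d0 : ℕ, ∀ d : ℕ, d0 ≤ d → R * d + 1 ≤ 2 ^ d := by
  have h1 := tendsto_pow_const_div_const_pow_of_one_lt 1 (r := (2 : ℝ)) (by norm_num)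
  have h2 : 0 < 1 / (2 * (|R| + 1)) := by positivity
  obtain ⟨d0, hd0⟩ := (h1.eventually_lt_const h2).exists_forall_of_atTop
  refine ⟨max d0 1, fun d hd => ?_⟩
  have h3 := hd0 d (le_trans (le_max_left _ _) hd)
  have hd1 : (1 : ℝ) ≤ d := by exact_mod_cast le_trans (le_max_right _ _) hd
  rw [div_lt_div_iff₀ (by positivity) (by positivity), one_mul, pow_one] at h3
  have h4 : R ≤ |R| := le_abs_self R
  have h5 : 0 ≤ |R| := abs_nonneg R
  nlinarith

theorem mainK (hT : TowerS) : ∃ C : ℝ, 0 < C ∧ ∀ δ : ℝ, 0 < δ → δ ≤ 1 →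
    ∃ n₀ : ℕ, ∀ n : ℕ, n₀ ≤ n → ∃ A : Finset ℝ, A.card = n ∧ (∀ a ∈ A, IsIntegral ℤ a) ∧
      ∀ k : ℕ, 1 ≤ k →
        ((sumk k A).card : ℝ) ≤ (n : ℝ) ^ (Real.exp (C / δ) + δ * Real.log k) ∧
        ((prodk k A).card : ℝ) ≤ (n : ℝ) ^ (1 + δ + δ * Real.log k) := by
  classical
  obtain ⟨C', m, hm, hT⟩ := hT
  set e := max C' 1 with hedef
  have he1 : 1 ≤ e := le_max_right _ _
  set K : ℝ := (2 * 4 ^ e + 2) * 4 ^ e * (3 * 2 ^ e) with hK
  have h4e : (1 : ℝ) ≤ 4 ^ e := one_le_pow₀ (by norm_num)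
  have h2e : (1 : ℝ) ≤ 2 ^ e := one_le_pow₀ (by norm_num)
  have hK1 : 1 ≤ K := by
    rw [hK]
    have h1 : (1 : ℝ) ≤ (2 * 4 ^ e + 2) * 4 ^ e := by nlinarith
    nlinarith
  set C2 : ℝ := Real.log (1014 * K) with hC2
  have hC20 : 0 ≤ C2 := Real.log_nonneg (by linarith)
  set C1 : ℝ := C2 + 2 with hC1
  have hC1' : 2 ≤ C1 := by linarith
  set C3 : ℝ := Real.log (5 + 3 * K + e) + 2 * C1 with hC3
  have hlog5 : 0 ≤ Real.log (5 + 3 * K + e) := Real.log_nonneg (by
    have : (0 : ℝ) ≤ e := Nat.cast_nonneg e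
    linarith)
  refine ⟨C3, by linarith, fun δ hδ0 hδ1 => ?_⟩
  -- the parameter
  set lam : ℝ := C1 / δ with hlam
  have hlam2 : 2 ≤ lam := by
    rw [hlam, le_div_iff₀ hδ0]
    nlinarith
  have hlam0 : 0 < lam := by linarith
  have hρ1 : 1 ≤ Real.exp (2 * lam) := Real.one_le_exp (by linarith)
  obtain ⟨d0, hd0⟩ := exists_d1 (3 * K * Real.exp (2 * lam))
  set D : ℕ := max d0 m with hD
  obtain ⟨n1, hn1⟩ := exists_nat_ge (Real.exp (lam * (m * 2 ^ D)))
  refine ⟨max n1 1, fun n hn => ?_⟩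
  have hn0 : 1 ≤ n := le_trans (le_max_right _ _) hn
  have hn0' : (0 : ℝ) < n := by exact_mod_cast hn0
  have hn1R : (1 : ℝ) ≤ n := by exact_mod_cast hn0
  have hbase : lam * (m * 2 ^ D) ≤ Real.log n := by
    rw [Real.le_log_iff_exp_le hn0']
    refine hn1.trans ?_
    exact_mod_cast le_trans (le_max_left _ _) hn
  obtain ⟨j, hjD, hj1, hj2⟩ : ∃ j : ℕ, D ≤ j ∧ lam * (m * 2 ^ j) ≤ Real.log n ∧
      Real.log n < lam * (m * 2 ^ (j + 1)) := by
    by_contra hcon
    push Not at hcon
    have hall : ∀ j : ℕ, D ≤ j → lam * (m * 2 ^ j) ≤ Real.log n := by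
      intro j hj
      induction j, hj using Nat.le_induction with
      | base => exact hbase
      | succ j hj ih => exact hcon j hj ih
    have hlim : Tendsto (fun j : ℕ => lam * ((m : ℝ) * 2 ^ j)) atTop atTop := by
      refine Tendsto.const_mul_atTop hlam0 (Tendsto.const_mul_atTop (by exact_mod_cast hm) ?_)
      exact tendsto_pow_atTop_atTop_of_one_lt (by norm_num)
    obtain ⟨J, hJ⟩ := ((hlim.eventually_gt_atTop (Real.log n)).and
      (eventually_ge_atTop D)).exists
    linarith [hall J hJ.2, hJ.1]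
  obtain ⟨L, i1, i2, hr, h2, hdeg, hdisc⟩ := hT j
  have hdL : d0 ≤ finrank ℚ L := by
    rw [hdeg]
    have h1 : d0 ≤ j := le_trans (le_max_left _ _) hjD
    have h3 : j < 2 ^ j := Nat.lt_two_pow_self
    nlinarith
  set d := finrank ℚ L with hddef
  have hdpos : 0 < d := finrank_pos
  have hdposR : (0 : ℝ) < d := by exact_mod_cast hdpos
  have hd0R : (d : ℝ) ≠ 0 := hdposR.ne'
  have hdR : (d : ℝ) = m * 2 ^ j := by rw [hdeg]; push_cast; ring
  rw [pow_succ] at hj2
  have hj1' : lam * d ≤ Real.log n := by rw [hdR]; exact hj1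
  have hj2' : Real.log n < lam * (2 * d) := by rw [hdR]; linarith
  -- discriminant
  have hC'e : C' < 2 ^ e := lt_of_le_of_lt (le_max_left _ _) Nat.lt_two_pow_self
  have hdiscR : |(discr L : ℝ)| ≤ ((2 : ℝ) ^ e) ^ d := by
    have h6 : |(discr L : ℝ)| = ((discr L).natAbs : ℝ) := by
      rw [Nat.cast_natAbs]; push_cast; rfl
    rw [h6]
    have h7 : (discr L).natAbs ≤ (2 ^ e) ^ d := hdisc.trans (Nat.pow_le_pow_left hC'e.le _)
    exact_mod_cast h7
  have he : √|(discr L : ℝ)| < ((2 : ℝ) ^ e) ^ d := by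
    rw [Real.sqrt_lt' (by positivity)]
    have h1 : (1 : ℝ) < ((2 : ℝ) ^ e) ^ d := by
      refine one_lt_pow₀ ?_ hdpos.ne'
      exact one_lt_pow₀ (by norm_num) (by omega)
    nlinarith
  -- the size of the box
  set q : ℝ := (n : ℝ) ^ ((1 : ℝ) / d) with hq
  have hq0 : 0 < q := Real.rpow_pos_of_pos hn0' _
  have hq1 : 1 ≤ q := Real.one_le_rpow hn1R (by positivity)
  have hqd : q ^ d = n := by
    rw [hq, ← Real.rpow_natCast, ← Real.rpow_mul hn0'.le, one_div, inv_mul_cancel₀ hd0R,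
      Real.rpow_one]
  have hqle : q ≤ Real.exp (2 * lam) := by
    rw [hq, Real.rpow_def_of_pos hn0', Real.exp_le_exp, mul_one_div, div_le_iff₀ hdposR]
    linarith
  set r : ℕ := ⌈2 * K * q⌉₊ with hr'
  have hr1 : 2 * K * q ≤ r := Nat.le_ceil _
  have hr2 : (r : ℝ) ≤ 3 * K * q := by
    have h1 := (Nat.ceil_lt_add_one (a := 2 * K * q) (by positivity)).le
    have h3 : 1 ≤ K * q := by nlinarith
    rw [hr']
    linarith
  have hr3 : (r : ℝ) ≤ 3 * K * Real.exp (2 * lam) :=
    hr2.trans (mul_le_mul_of_nonneg_left hqle (by positivity))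
  have hrpos : (1 : ℝ) ≤ r := by nlinarith
  obtain ⟨A, hA1, hA2, hA3⟩ := coreK (L := L) hr h2 e r he
  rw [← hddef] at hA1 hA2 hA3
  have hAn : n ≤ A.card := by
    have h1 : (r : ℝ) * d + 1 ≤ 2 ^ d := by
      refine le_trans ?_ (hd0 d hdL)
      have := mul_le_mul_of_nonneg_right hr3 hdposR.le
      linarith
    have h3 : (2 * K * q) ^ d ≤ ((r : ℝ) + 1) ^ d := pow_le_pow_left₀ (by positivity) (by linarith) _
    rw [mul_pow, mul_pow, hqd] at h3
    have h4 : (r * d + 1) * K ^ d * (A.card : ℝ) ≤ 2 ^ d * K ^ d * A.card := by gcongr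
    have h5 : (2 ^ d * K ^ d) * (n : ℝ) ≤ (2 ^ d * K ^ d) * A.card := by
      calc _ ≤ ((r : ℝ) + 1) ^ d := h3
        _ ≤ _ := hA1
        _ ≤ _ := h4
    have h6 := le_of_mul_le_mul_left h5 (by positivity)
    exact_mod_cast h6
  obtain ⟨B, hB1, hB2, hB3⟩ := to_realK hr A n hAn
  refine ⟨B, hB1, hB2, fun k hk => ?_⟩
  have hk1 : (1 : ℝ) ≤ k := by exact_mod_cast hk
  have hk0 : (0 : ℝ) < k := by linarith
  have hlogk : 0 ≤ Real.log k := Real.log_nonneg hk1
  have hlogn : 0 ≤ Real.log n := Real.log_nonneg hn1R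
  -- powers with exponent `d`
  have hpow : ∀ x y : ℝ, 0 < x → 0 ≤ y → Real.log x ≤ lam * y → x ^ d ≤ (n : ℝ) ^ y := by
    intro x y hx hy hxy
    rw [Real.rpow_def_of_pos hn0', ← Real.rpow_natCast, Real.rpow_def_of_pos hx, Real.exp_le_exp]
    calc Real.log x * d ≤ (lam * y) * d := mul_le_mul_of_nonneg_right hxy hdposR.le
      _ = (lam * d) * y := by ring
      _ ≤ Real.log n * y := mul_le_mul_of_nonneg_right hj1' hy
  have hδl : 1 ≤ lam * δ := by
    rw [hlam, div_mul_cancel₀ _ hδ0.ne']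
    linarith
  constructor
  · -- sums
    calc ((sumk k B).card : ℝ) ≤ (sumk k A).card := by exact_mod_cast (hB3 k).1
      _ ≤ (4 * k * 2 ^ (r + e)) ^ d := hA2 k hk
      _ ≤ (n : ℝ) ^ (Real.exp (C3 / δ) + δ * Real.log k) := by
          refine hpow _ _ (by positivity) (by positivity) ?_
          have h1 : Real.log (4 * k * 2 ^ (r + e)) = Real.log 4 + Real.log k + (r + e) * Real.log 2 := by
            rw [Real.log_mul (by positivity) (by positivity), Real.log_mul (by norm_num) hk0.ne',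
              Real.log_pow]
            push_cast
            ring
          rw [h1]
          have h3 : Real.log 4 ≤ 2 := by
            rw [show (4 : ℝ) = 2 ^ 2 by norm_num, Real.log_pow]
            have := Real.log_two_lt_d9
            push_cast
            linarith
          have h4 : ((r : ℝ) + e) * Real.log 2 ≤ r + e := by
            have := Real.log_two_lt_d9
            have h5 : (0 : ℝ) ≤ (r : ℝ) + e := by positivity
            nlinarith
          have h5 : Real.log k ≤ lam * (δ * Real.log k) := by nlinarith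
          have h6 : 2 + (r + e : ℝ) ≤ (5 + 3 * K + e) * Real.exp (2 * lam) := by
            have h7 : (0 : ℝ) ≤ e := Nat.cast_nonneg e
            nlinarith
          have h7 : (5 + 3 * K + e) * Real.exp (2 * lam) ≤ Real.exp (C3 / δ) := by
            have h8 : (0 : ℝ) < 5 + 3 * K + e := by positivity
            nth_rewrite 1 [← Real.exp_log h8]
            rw [← Real.exp_add, Real.exp_le_exp]
            have h9 : Real.log (5 + 3 * K + e) ≤ Real.log (5 + 3 * K + e) / δ := by
              rw [le_div_iff₀ hδ0]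
              exact mul_le_of_le_one_right hlog5 hδ1
            have h11 : C3 / δ = Real.log (5 + 3 * K + e) / δ + 2 * lam := by
              rw [hC3, hlam]; ring
            rw [h11]
            linarith
          have h8 : Real.exp (C3 / δ) ≤ lam * Real.exp (C3 / δ) := by
            have := Real.exp_pos (C3 / δ)
            nlinarith
          linarith
  · -- products
    calc ((prodk k B).card : ℝ) ≤ (prodk k A).card := by exact_mod_cast (hB3 k).2
      _ ≤ ((k * r + 1) * k * 169) ^ d := by exact_mod_cast hA3 k hk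
      _ ≤ ((1014 * K) * (k : ℝ) ^ 2 * q) ^ d := by
          refine pow_le_pow_left₀ (by positivity) ?_ _
          have h1 : (k : ℝ) * r + 1 ≤ 2 * (k * r) := by nlinarith
          calc ((k : ℝ) * r + 1) * k * 169 ≤ (2 * (k * r)) * k * 169 := by gcongr
            _ = 338 * (k : ℝ) ^ 2 * r := by ring
            _ ≤ 338 * (k : ℝ) ^ 2 * (3 * K * q) := mul_le_mul_of_nonneg_left hr2 (by positivity)
            _ = _ := by ring
      _ = (1014 * K * (k : ℝ) ^ 2) ^ d * n := by rw [mul_pow _ q, hqd]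
      _ ≤ (n : ℝ) ^ (δ + δ * Real.log k) * n := by
          refine mul_le_mul_of_nonneg_right ?_ hn0'.le
          refine hpow _ _ (by positivity) (by positivity) ?_
          rw [Real.log_mul (by positivity) (by positivity), Real.log_pow]
          have h1 : lam * δ = C1 := by rw [hlam, div_mul_cancel₀ _ hδ0.ne']
          have h3 : lam * (δ + δ * Real.log k) = C1 + C1 * Real.log k := by
            rw [mul_add, ← mul_assoc, h1]
          rw [h3]
          push_cast
          nlinarith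
      _ = (n : ℝ) ^ (1 + δ + δ * Real.log k) := by
          rw [show 1 + δ + δ * Real.log k = (δ + δ * Real.log k) + 1 by ring,
            Real.rpow_add hn0' (δ + δ * Real.log k) 1, Real.rpow_one]

theorem mainK2 (hT : TowerS) : ∃ C : ℝ, 0 < C ∧ ∀ k : ℕ, 16 ≤ k →
    ∃ n₀ : ℕ, ∀ n : ℕ, n₀ ≤ n → ∃ A : Finset ℝ, A.card = n ∧ (∀ a ∈ A, IsIntegral ℤ a) ∧
      max ((sumk k A).card : ℝ) ((prodk k A).card : ℝ) ≤
        (n : ℝ) ^ (C * Real.log k / Real.log (Real.log k)) := by
  obtain ⟨C, hC, h⟩ := mainK hT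
  refine ⟨Real.exp C + 2 * C + 2, by positivity, fun k hk => ?_⟩
  have hk1 : (16 : ℝ) ≤ k := by exact_mod_cast hk
  have hlogk : Real.exp 1 ≤ Real.log k := by
    have h1 : Real.log 16 ≤ Real.log k := Real.log_le_log (by norm_num) hk1
    have h3 : Real.log 16 = 4 * Real.log 2 := by
      rw [show (16 : ℝ) = 2 ^ 4 by norm_num, Real.log_pow]; push_cast; ring
    have h4 := Real.log_two_gt_d9
    have h5 := Real.exp_one_lt_d9
    linarith
  have hl0 : 0 < Real.log k := lt_of_lt_of_le (Real.exp_pos 1) hlogk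
  set Λ : ℝ := Real.log (Real.log k) with hΛ
  have hΛ1 : 1 ≤ Λ := by
    rw [hΛ, Real.le_log_iff_exp_le hl0]
    exact hlogk
  have hΛ0 : 0 < Λ := by linarith
  have hexpΛ : Real.exp Λ = Real.log k := Real.exp_log hl0
  have hQ1 : 1 ≤ Real.log k / Λ := by
    rw [one_le_div hΛ0, ← hexpΛ]
    have := Real.add_one_le_exp Λ
    linarith
  rcases le_or_gt (2 * C) Λ with hcase | hcase
  · -- `δ = 2 C / Λ`
    have hδ0 : 0 < 2 * C / Λ := by positivity
    have hδ1 : 2 * C / Λ ≤ 1 := by rw [div_le_one hΛ0]; exact hcase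
    obtain ⟨n₀, hn₀⟩ := h (2 * C / Λ) hδ0 hδ1
    refine ⟨max n₀ 1, fun n hn => ?_⟩
    obtain ⟨A, hA1, hA2, hA3⟩ := hn₀ n (le_trans (le_max_left _ _) hn)
    have hn1 : (1 : ℝ) ≤ n := by exact_mod_cast le_trans (le_max_right _ _) hn
    obtain ⟨h1, h3⟩ := hA3 k (by omega)
    have e1 : C / (2 * C / Λ) = Λ / 2 := by field_simp
    rw [e1] at h1
    have e2 : 2 * C / Λ * Real.log k = 2 * C * (Real.log k / Λ) := by ring
    rw [e2] at h1 h3
    have hsq : Real.exp (Λ / 2) ≤ Real.log k / Λ := by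
      rw [le_div_iff₀ hΛ0, ← hexpΛ]
      have h5 : Real.exp Λ = Real.exp (Λ / 2) * Real.exp (Λ / 2) := by
        rw [← Real.exp_add]; congr 1; ring
      rw [h5]
      refine mul_le_mul_of_nonneg_left ?_ (Real.exp_pos _).le
      -- `Λ ≤ exp (Λ / 2)`
      have h6 := Real.quadratic_le_exp_of_nonneg (x := Λ / 2) (by positivity)
      nlinarith [sq_nonneg (Λ / 2 - 1)]
    have hE : 0 < Real.exp C := Real.exp_pos C
    refine ⟨A, hA1, hA2, max_le (h1.trans ?_) (h3.trans ?_)⟩
    · refine Real.rpow_le_rpow_of_exponent_le hn1 ?_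
      calc Real.exp (Λ / 2) + 2 * C * (Real.log k / Λ) ≤ (Real.log k / Λ) + 2 * C * (Real.log k / Λ) := by
            linarith
        _ = (1 + 2 * C) * (Real.log k / Λ) := by ring
        _ ≤ (Real.exp C + 2 * C + 2) * (Real.log k / Λ) := by
            refine mul_le_mul_of_nonneg_right ?_ (by positivity)
            linarith
        _ = _ := by ring
    · refine Real.rpow_le_rpow_of_exponent_le hn1 ?_
      calc 1 + 2 * C / Λ + 2 * C * (Real.log k / Λ) ≤ 2 * (Real.log k / Λ) + 2 * C * (Real.log k / Λ) := by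
            linarith
        _ = (2 + 2 * C) * (Real.log k / Λ) := by ring
        _ ≤ (Real.exp C + 2 * C + 2) * (Real.log k / Λ) := by
            refine mul_le_mul_of_nonneg_right ?_ (by positivity)
            linarith
        _ = _ := by ring
  · -- `δ = 1`
    obtain ⟨n₀, hn₀⟩ := h 1 one_pos le_rfl
    refine ⟨max n₀ 1, fun n hn => ?_⟩
    obtain ⟨A, hA1, hA2, hA3⟩ := hn₀ n (le_trans (le_max_left _ _) hn)
    have hn1 : (1 : ℝ) ≤ n := by exact_mod_cast le_trans (le_max_right _ _) hn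
    obtain ⟨h1, h3⟩ := hA3 k (by omega)
    rw [div_one, one_mul] at h1
    rw [one_mul] at h3
    have hE : 0 < Real.exp C := Real.exp_pos C
    have hlogk2 : Real.log k ≤ 2 * C * (Real.log k / Λ) := by
      rw [← mul_div_assoc, le_div_iff₀ hΛ0]
      nlinarith
    refine ⟨A, hA1, hA2, max_le (h1.trans ?_) (h3.trans ?_)⟩
    · refine Real.rpow_le_rpow_of_exponent_le hn1 ?_
      calc Real.exp C + Real.log k ≤ Real.exp C * (Real.log k / Λ) + 2 * C * (Real.log k / Λ) := by
            nlinarith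
        _ ≤ (Real.exp C + 2 * C + 2) * (Real.log k / Λ) := by nlinarith
        _ = _ := by ring
    · refine Real.rpow_le_rpow_of_exponent_le hn1 ?_
      calc 1 + 1 + Real.log k ≤ 2 * (Real.log k / Λ) + 2 * C * (Real.log k / Λ) := by
            linarith
        _ ≤ (Real.exp C + 2 * C + 2) * (Real.log k / Λ) := by nlinarith
        _ = _ := by ring

end Pool.Agent.U516.SP
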