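import Mathlib
import Pool.Agent.U516.SP.Two

/-! Sets with few sums and few products in a totally real field in which 2 splits completely,
with a bound for the conjugates. -/

set_option autoImplicit false

open NumberField NumberField.InfinitePlace Module IsDedekindDomain
open Pool.Agent.TeamU
open scoped Pointwise NNReal

namespace Pool.Agent.U516.SP

section main
variable {L : Type} [Field L] [NumberField L]

theorem core2h [DecidableEq (𝓞 L)] (hr : IsTotallyReal L) (h2 : TwoSplit L) (r : ℕ) (T : ℝ) (hT1 : 1 ≤ T)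
    (hT : 2 * √|(discr L : ℝ)| ≤ T ^ finrank ℚ L) :
    ∃ A : Finset (𝓞 L),
      (((r : ℝ) + 1) * T) ^ finrank ℚ L ≤
        A.card * (4 * (r * finrank ℚ L + 1) * 24 ^ finrank ℚ L * |(discr L : ℝ)|) ∧
      ((A + A).card : ℝ) ≤ (4 * T * 2 ^ r + 2) ^ finrank ℚ L ∧
      ((A * A).card : ℝ) ≤ ((2 * r + 1) * (2 * T ^ 2 + 2)) ^ finrank ℚ L ∧
      ∀ x ∈ A, x ≠ 0 ∧ ∀ w : InfinitePlace L, w (x : L) ≤ T * 2 ^ r := by
  classical
  set d := finrank ℚ L with hddef
  have hdpos : 0 < d := finrank_pos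
  have hd0 : (d : ℝ) ≠ 0 := by exact_mod_cast hdpos.ne'
  have hT0 : 0 < T := lt_of_lt_of_le one_pos hT1
  -- dyadic primes
  let V : Type := {v : HeightOneSpectrum (𝓞 L) // (2 : 𝓞 L) ∈ v.asIdeal}
  have hVfin : Finite V := by
    have h1 := card_dyadic (M := L) h2
    have h3 : {v : HeightOneSpectrum (𝓞 L) | (2 : 𝓞 L) ∈ v.asIdeal}.Finite := by
      by_contra h
      rw [Set.Infinite.ncard h] at h1
      omega
    exact h3
  have hVft : Fintype V := Fintype.ofFinite V
  have hVcard : Fintype.card V = d := by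
    rw [← Nat.card_eq_fintype_card]
    exact card_dyadic (M := L) h2
  let P : V → HeightOneSpectrum (𝓞 L) := fun v => v.1
  have hPinj : Function.Injective P := Subtype.val_injective
  have hPcard : ∀ v, Nat.card (𝓞 L ⧸ (P v).asIdeal) = 2 := fun v => (h2 v.1 v.2).1
  let I : (V → ℕ) → Ideal (𝓞 L) := fun k => ∏ v, (P v).asIdeal ^ k v
  have hIne : ∀ k, I k ≠ ⊥ := by
    intro k
    rw [← Ideal.zero_eq_bot]
    refine Finset.prod_ne_zero_iff.mpr fun i _ => pow_ne_zero _ ?_
    rw [Ideal.zero_eq_bot]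
    exact (P i).ne_bot
  have hIN : ∀ k, Ideal.absNorm (I k) = 2 ^ ∑ v, k v := fun k => absNorm_prod P hPcard k
  -- the slice
  obtain ⟨s, hsle, hslice⟩ := exists_slice (V := V) r
  rw [hVcard] at hsle hslice
  set box := Fintype.piFinset fun _ : V => Finset.range (r + 1) with hbox
  set sl := box.filter (fun k => ∑ v, k v = s) with hsl
  have hslbox : ∀ k ∈ sl, ∀ v, k v ≤ r := by
    intro k hk v
    have := Fintype.mem_piFinset.mp (Finset.mem_filter.mp hk).1 v
    rw [Finset.mem_range] at this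
    omega
  have hslsum : ∀ k ∈ sl, ∑ v, k v = s := fun k hk => (Finset.mem_filter.mp hk).2
  -- the radius
  let ρ : ℝ := (2 : ℝ) ^ ((s : ℝ) / d)
  have hρ0 : 0 < ρ := Real.rpow_pos_of_pos (by norm_num) _
  have hρd : ρ ^ d = 2 ^ s := by
    rw [← Real.rpow_natCast, ← Real.rpow_mul (by norm_num), div_mul_cancel₀ _ hd0,
      Real.rpow_natCast]
  have hρr : ρ ≤ 2 ^ r := by
    rw [← Real.rpow_natCast]
    refine Real.rpow_le_rpow_of_exponent_le (by norm_num) ?_
    rw [div_le_iff₀ (by exact_mod_cast hdpos)]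
    exact_mod_cast hsle
  let R : ℝ := T * ρ
  have hR0 : 0 < R := mul_pos hT0 hρ0
  have hRd : R ^ d = T ^ d * 2 ^ s := by simp only [R]; rw [mul_pow, hρd]
  -- the number of elements in one ideal
  have hdisc0 : 0 < |(discr L : ℝ)| := abs_pos.mpr (by exact_mod_cast discr_ne_zero L)
  have hsq : 0 < √|(discr L : ℝ)| := Real.sqrt_pos.mpr hdisc0
  set N : ℕ := ⌈T ^ d / √|(discr L : ℝ)|⌉₊ - 1 with hN
  have hN1 : 2 ≤ T ^ d / √|(discr L : ℝ)| := by rw [le_div_iff₀ hsq]; exact hT
  have hceil : 1 ≤ ⌈T ^ d / √|(discr L : ℝ)|⌉₊ := Nat.one_le_ceil_iff.mpr (by linarith)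
  have hNcast : (N : ℝ) = (⌈T ^ d / √|(discr L : ℝ)|⌉₊ : ℝ) - 1 := by
    rw [hN]; push_cast [hceil]; ring
  have hNlt : (N : ℝ) * √|(discr L : ℝ)| < T ^ d := by
    rw [← lt_div_iff₀ hsq, hNcast]
    have := Nat.ceil_lt_add_one (a := T ^ d / √|(discr L : ℝ)|) (by positivity)
    linarith
  have hNge : T ^ d / (2 * √|(discr L : ℝ)|) ≤ N := by
    rw [hNcast]
    have h1 := Nat.le_ceil (T ^ d / √|(discr L : ℝ)|)
    have h3 : T ^ d / (2 * √|(discr L : ℝ)|) = (T ^ d / √|(discr L : ℝ)|) / 2 := by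
      field_simp
    rw [h3]
    linarith
  have hexists : ∀ k : V → ℕ, ∃ S : Finset (𝓞 L), k ∈ sl → (N ≤ S.card ∧ ∀ x ∈ S, x ∈ I k ∧ x ≠ 0 ∧
      ∀ w : InfinitePlace L, w (x : L) < R) := by
    intro k
    by_cases hk : k ∈ sl
    · obtain ⟨S, hS1, hS2⟩ := many_mem_ideal L (I k) (hIne k) ⟨R, hR0.le⟩ N (by
        show _ < R ^ finrank ℚ L
        rw [← hddef, hRd, hIN, hslsum k hk]
        push_cast
        have : (0 : ℝ) < 2 ^ s := by positivity
        calc (N : ℝ) * 2 ^ s * √|(discr L : ℝ)| = ((N : ℝ) * √|(discr L : ℝ)|) * 2 ^ s := by ring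
          _ < T ^ d * 2 ^ s := mul_lt_mul_of_pos_right hNlt this)
      exact ⟨S, fun _ => ⟨hS1, fun x hx => ⟨(hS2 x hx).1, (hS2 x hx).2.1, (hS2 x hx).2.2⟩⟩⟩
    · exact ⟨∅, fun h => absurd h hk⟩
  choose S hS using hexists
  -- intersections
  have hinter : ∀ k ∈ sl, ∀ k' ∈ sl, ((S k ∩ S k').card : ℝ) ≤
      (4 * T) ^ d * (5 / 7) ^ (∑ v, (max (k v) (k' v) - min (k v) (k' v))) := by
    intro k hk k' hk'
    rcases (S k ∩ S k').eq_empty_or_nonempty with hemp | ⟨x₀, hx₀⟩
    · rw [hemp]; simp only [Finset.card_empty, Nat.cast_zero]; positivity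
    set M : V → ℕ := fun v => max (k v) (k' v) with hM
    have hmemM : ∀ x ∈ S k ∩ S k', x ∈ I M := by
      intro x hx
      rw [Finset.mem_inter] at hx
      have h1 : ∀ v, x ∈ (P v).asIdeal ^ (M v) := by
        intro v
        rcases le_total (k v) (k' v) with h | h
        · simp only [hM]; rw [max_eq_right h]
          exact mem_pow_of_mem_prod P k' x ((hS k' hk').2 x hx.2).1 v
        · simp only [hM]; rw [max_eq_left h]
          exact mem_pow_of_mem_prod P k x ((hS k hk).2 x hx.1).1 v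
      exact Ideal.dvd_span_singleton.mp (prod_dvd_of_mem P hPinj M x h1)
    -- the sum of `M`
    obtain ⟨j, hj⟩ : ∃ j, ∑ v, M v = s + j := by
      have : s ≤ ∑ v, M v := by
        rw [← hslsum k hk]
        exact Finset.sum_le_sum fun v _ => le_max_left _ _
      exact ⟨_, (Nat.add_sub_cancel' this).symm⟩
    have hjj : ∑ v, (max (k v) (k' v) - min (k v) (k' v)) = 2 * j := by
      have h3 : ∑ v, (max (k v) (k' v) - min (k v) (k' v)) + (s + s) = 2 * ∑ v, M v := by
        rw [← hslsum k hk]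
        nth_rewrite 2 [hslsum k hk]
        rw [← hslsum k' hk', ← Finset.sum_add_distrib, ← Finset.sum_add_distrib, Finset.mul_sum]
        refine Finset.sum_congr rfl fun v _ => ?_
        simp only [hM]
        omega
      omega
    -- `2 ^ j ≤ T ^ d`
    have hx₀' := Finset.mem_inter.mp hx₀
    have h6 : Ideal.absNorm (Ideal.span {x₀}) ≠ 0 := by
      rw [Ne, Ideal.absNorm_eq_zero_iff, Ideal.span_singleton_eq_bot]
      exact ((hS k hk).2 x₀ hx₀'.1).2.1
    have h7 := Nat.le_of_dvd (Nat.pos_of_ne_zero h6)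
      (map_dvd Ideal.absNorm (Ideal.dvd_span_singleton.mpr (hmemM x₀ hx₀)))
    have h8 := absNorm_span_le x₀ R (fun w => (((hS k hk).2 x₀ hx₀'.1).2.2 w).le)
    rw [hIN, hj] at h7
    have h9 : (2 : ℝ) ^ (s + j) ≤ T ^ d * 2 ^ s := by
      rw [← hRd]
      refine le_trans ?_ h8
      exact_mod_cast h7
    -- pack
    let δ : ℝ := (2 : ℝ) ^ (((s + j : ℕ) : ℝ) / d)
    have hδ0 : 0 < δ := Real.rpow_pos_of_pos (by norm_num) _
    have hδd : δ ^ d = 2 ^ (s + j) := by
      rw [← Real.rpow_natCast, ← Real.rpow_mul (by norm_num), div_mul_cancel₀ _ hd0,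
        Real.rpow_natCast]
    have hpack := card_pack hr (I M) δ R hδ0 hR0.le (by
      rw [← hddef, hδd, hIN, hj]; push_cast; rfl) (S k ∩ S k') (fun x hx =>
        ⟨hmemM x hx, fun w => (((hS k hk).2 x (Finset.mem_inter.mp hx).1).2.2 w).le⟩)
    rw [← hddef] at hpack
    have hRδ : 1 ≤ R / δ := by
      rw [one_le_div hδ0]
      refine le_of_pow_le_pow_left₀ hdpos.ne' hR0.le ?_
      rw [hδd, hRd]; exact h9
    calc ((S k ∩ S k').card : ℝ) ≤ (2 * (R / δ) + 2) ^ d := hpack
      _ ≤ (4 * (R / δ)) ^ d := pow_le_pow_left₀ (by positivity) (by linarith) _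
      _ = (4 * T) ^ d * (1 / 2) ^ j := by
          rw [mul_pow, div_pow, hδd, hRd, mul_pow, pow_add]
          field_simp
          rw [← mul_pow]; norm_num
      _ ≤ (4 * T) ^ d * (5 / 7) ^ (∑ v, (max (k v) (k' v) - min (k v) (k' v))) := by
          rw [hjj, pow_mul]
          gcongr
          norm_num
  -- the set
  have hfin : ∀ x ∈ sl.biUnion S, x ≠ 0 ∧ ∀ w : InfinitePlace L, w (x : L) ≤ T * 2 ^ r := by
    intro x hx
    obtain ⟨k, hk, hxk⟩ := Finset.mem_biUnion.mp hx
    refine ⟨((hS k hk).2 x hxk).2.1, fun w => ?_⟩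
    have : R ≤ T * 2 ^ r := mul_le_mul_of_nonneg_left hρr hT0.le
    exact (((hS k hk).2 x hxk).2.2 w).le.trans this
  refine ⟨sl.biUnion S, ?_, ?_, ?_, hfin⟩
  · set A := sl.biUnion S with hA
    let m : 𝓞 L → ℝ := fun x => ((sl.filter (fun k => x ∈ S k)).card : ℝ)
    have hsum1 : ∑ x ∈ A, m x = ∑ k ∈ sl, ((S k).card : ℝ) := by
      simp only [m]
      have h1 : ∑ x ∈ A, (sl.filter (fun k => x ∈ S k)).card = ∑ k ∈ sl, (S k).card := by
        simp only [Finset.card_filter]
        rw [Finset.sum_comm]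
        refine Finset.sum_congr rfl fun k hk => ?_
        rw [← Finset.card_filter]
        congr 1
        ext x
        simp only [Finset.mem_filter]
        constructor
        · exact fun h => h.2
        · exact fun h => ⟨Finset.mem_biUnion.mpr ⟨k, hk, h⟩, h⟩
      exact_mod_cast h1
    have hsum2 : ∑ x ∈ A, m x ^ 2 = ∑ k ∈ sl, ∑ k' ∈ sl, ((S k ∩ S k').card : ℝ) := by
      have h1 : ∀ x ∈ A, m x ^ 2 = ∑ k ∈ sl, ∑ k' ∈ sl,
          (if x ∈ S k ∩ S k' then (1 : ℝ) else 0) := by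
        intro x _
        simp only [m]
        rw [Finset.card_filter]
        push_cast
        rw [sq, Finset.sum_mul_sum]
        refine Finset.sum_congr rfl fun k _ => Finset.sum_congr rfl fun k' _ => ?_
        by_cases h1 : x ∈ S k <;> by_cases h3 : x ∈ S k' <;> simp [h1, h3]
      rw [Finset.sum_congr rfl h1, Finset.sum_comm]
      refine Finset.sum_congr rfl fun k hk => ?_
      rw [Finset.sum_comm]
      refine Finset.sum_congr rfl fun k' _ => ?_
      rw [Finset.sum_ite_mem]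
      simp only [Finset.sum_const, nsmul_eq_mul, mul_one]
      congr 2
      ext x
      simp only [Finset.mem_inter]
      constructor
      · exact fun h => h.2
      · exact fun h => ⟨Finset.mem_biUnion.mpr ⟨k, hk, h.1⟩, h⟩
    have hCS := sq_sum_le_card_mul_sum_sq (s := A) (f := m)
    rw [hsum1, hsum2] at hCS
    have hlow : (sl.card : ℝ) * N ≤ ∑ k ∈ sl, ((S k).card : ℝ) := by
      rw [← nsmul_eq_mul]
      refine Finset.card_nsmul_le_sum _ _ _ fun k hk => ?_
      exact_mod_cast (hS k hk).1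
    have hup : ∑ k ∈ sl, ∑ k' ∈ sl, ((S k ∩ S k').card : ℝ) ≤ sl.card * ((4 * T) ^ d * 6 ^ d) := by
      rw [← nsmul_eq_mul]
      refine Finset.sum_le_card_nsmul _ _ _ fun k hk => ?_
      calc ∑ k' ∈ sl, ((S k ∩ S k').card : ℝ)
          ≤ ∑ k' ∈ sl, (4 * T) ^ d * (5 / 7) ^ (∑ v, (max (k v) (k' v) - min (k v) (k' v))) :=
            Finset.sum_le_sum fun k' hk' => hinter k hk k' hk'
        _ ≤ ∑ k' ∈ box, (4 * T) ^ d * (5 / 7) ^ (∑ v, (max (k v) (k' v) - min (k v) (k' v))) :=
            Finset.sum_le_sum_of_subset_of_nonneg (Finset.filter_subset _ _)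
              (fun _ _ _ => by positivity)
        _ = (4 * T) ^ d * ∑ k' ∈ box, (5 / 7) ^ (∑ v, (max (k v) (k' v) - min (k v) (k' v))) := by
            rw [Finset.mul_sum]
        _ ≤ (4 * T) ^ d * 6 ^ d := by
            refine mul_le_mul_of_nonneg_left ?_ (by positivity)
            have := sum_geom r k
            rw [hVcard] at this
            exact this
    have hsl0 : 0 < (sl.card : ℝ) := by
      have : 0 < sl.card := by
        by_contra h
        have h0 : sl.card = 0 := by omega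
        rw [h0, mul_zero] at hslice
        have : 0 < (r + 1) ^ d := by positivity
        omega
      exact_mod_cast this
    -- `sl * N ^ 2 ≤ A * (24 T) ^ d`
    have h1 : (sl.card : ℝ) * (N : ℝ) ^ 2 ≤ A.card * ((4 * T) ^ d * 6 ^ d) := by
      have h3 : ((sl.card : ℝ) * N) ^ 2 ≤ A.card * (sl.card * ((4 * T) ^ d * 6 ^ d)) := by
        calc ((sl.card : ℝ) * N) ^ 2 ≤ (∑ k ∈ sl, ((S k).card : ℝ)) ^ 2 :=
              pow_le_pow_left₀ (by positivity) hlow 2
          _ ≤ _ := hCS
          _ ≤ _ := mul_le_mul_of_nonneg_left hup (Nat.cast_nonneg _)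
      have h4 : (sl.card : ℝ) * ((sl.card : ℝ) * (N : ℝ) ^ 2) ≤
          sl.card * (A.card * ((4 * T) ^ d * 6 ^ d)) := by
        calc (sl.card : ℝ) * ((sl.card : ℝ) * (N : ℝ) ^ 2) = ((sl.card : ℝ) * N) ^ 2 := by ring
          _ ≤ _ := h3
          _ = _ := by ring
      exact le_of_mul_le_mul_left h4 hsl0
    have h3 : (T ^ d) ^ 2 ≤ (N : ℝ) ^ 2 * (4 * |(discr L : ℝ)|) := by
      have h4 : T ^ d ≤ N * (2 * √|(discr L : ℝ)|) := by
        rwa [div_le_iff₀ (by positivity)] at hNge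
      calc (T ^ d) ^ 2 ≤ (N * (2 * √|(discr L : ℝ)|)) ^ 2 := pow_le_pow_left₀ (by positivity) h4 2
        _ = (N : ℝ) ^ 2 * (4 * (√|(discr L : ℝ)|) ^ 2) := by ring
        _ = _ := by rw [Real.sq_sqrt hdisc0.le]
    have h4 : ((r : ℝ) + 1) ^ d ≤ (r * d + 1) * sl.card := by exact_mod_cast hslice
    have hTd : 0 < T ^ d := by positivity
    have h5 : T ^ d * (((r : ℝ) + 1) * T) ^ d ≤
        T ^ d * (A.card * (4 * (r * d + 1) * 24 ^ d * |(discr L : ℝ)|)) := by
      calc T ^ d * (((r : ℝ) + 1) * T) ^ d = (((r : ℝ) + 1) ^ d) * (T ^ d) ^ 2 := by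
            rw [mul_pow]; ring
        _ ≤ ((r * d + 1) * sl.card) * ((N : ℝ) ^ 2 * (4 * |(discr L : ℝ)|)) :=
            mul_le_mul h4 h3 (by positivity) (by positivity)
        _ = ((r * d + 1) * (4 * |(discr L : ℝ)|)) * (sl.card * (N : ℝ) ^ 2) := by ring
        _ ≤ ((r * d + 1) * (4 * |(discr L : ℝ)|)) * (A.card * ((4 * T) ^ d * 6 ^ d)) :=
            mul_le_mul_of_nonneg_left h1 (by positivity)
        _ = _ := by
            rw [mul_pow, show (24 : ℝ) = 4 * 6 by norm_num, mul_pow 4 6]; ring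
    exact le_of_mul_le_mul_left h5 hTd
  · -- sums
    have h1 := card_pack hr (⊤ : Ideal (𝓞 L)) 1 (2 * R) one_pos (by positivity) (by simp)
      (sl.biUnion S + sl.biUnion S) (by
        intro z hz
        obtain ⟨x, hx, y, hy, rfl⟩ := Finset.mem_add.mp hz
        obtain ⟨k, hk, hxk⟩ := Finset.mem_biUnion.mp hx
        obtain ⟨k', hk', hyk⟩ := Finset.mem_biUnion.mp hy
        refine ⟨Submodule.mem_top, fun w => ?_⟩
        have e1 := ((hS k hk).2 x hxk).2.2 w
        have e2 := ((hS k' hk').2 y hyk).2.2 w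
        have e3 : ((x + y : 𝓞 L) : L) = (x : L) + (y : L) := by push_cast; ring
        rw [e3]
        have e4 : w ((x : L) + (y : L)) ≤ w (x : L) + w (y : L) := w.1.add_le _ _
        linarith)
    rw [← hddef] at h1
    refine h1.trans (pow_le_pow_left₀ (by positivity) ?_ _)
    have : R ≤ T * 2 ^ r := mul_le_mul_of_nonneg_left hρr hT0.le
    rw [div_one]
    linarith
  · -- products
    set A := sl.biUnion S with hA
    let box2 := Fintype.piFinset fun _ : V => Finset.range (2 * r + 1)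
    let sl2 := box2.filter (fun k => ∑ v, k v = 2 * s)
    have hcover : A * A ⊆ sl2.biUnion (fun u => (A * A).filter (fun z => z ∈ I u)) := by
      intro z hz
      have hz' := hz
      obtain ⟨x, hx, y, hy, rfl⟩ := Finset.mem_mul.mp hz
      obtain ⟨k, hk, hxk⟩ := Finset.mem_biUnion.mp hx
      obtain ⟨k', hk', hyk⟩ := Finset.mem_biUnion.mp hy
      refine Finset.mem_biUnion.mpr ⟨fun v => k v + k' v, ?_, ?_⟩
      · simp only [sl2, box2, Finset.mem_filter, Fintype.mem_piFinset, Finset.mem_range]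
        refine ⟨fun v => ?_, ?_⟩
        · have := hslbox k hk v
          have := hslbox k' hk' v
          omega
        · rw [Finset.sum_add_distrib, hslsum k hk, hslsum k' hk']; ring
      · refine Finset.mem_filter.mpr ⟨hz', ?_⟩
        simp only [I]
        have : ∏ v, (P v).asIdeal ^ (k v + k' v) = I k * I k' := by
          simp only [I]
          rw [← Finset.prod_mul_distrib]
          exact Finset.prod_congr rfl fun v _ => pow_add _ _ _
        rw [this]
        exact Ideal.mul_mem_mul ((hS k hk).2 x hxk).1 ((hS k' hk').2 y hyk).1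
    have hbd : ∀ z ∈ A * A, ∀ w : InfinitePlace L, w (z : L) ≤ R ^ 2 := by
      intro z hz w
      obtain ⟨x, hx, y, hy, rfl⟩ := Finset.mem_mul.mp hz
      obtain ⟨k, hk, hxk⟩ := Finset.mem_biUnion.mp hx
      obtain ⟨k', hk', hyk⟩ := Finset.mem_biUnion.mp hy
      have e3 : ((x * y : 𝓞 L) : L) = (x : L) * (y : L) := by push_cast; ring
      rw [e3, map_mul, sq]
      exact mul_le_mul (((hS k hk).2 x hxk).2.2 w).le (((hS k' hk').2 y hyk).2.2 w).le
        (apply_nonneg w _) hR0.le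
    have hone : ∀ u ∈ sl2, (((A * A).filter (fun z => z ∈ I u)).card : ℝ) ≤ (2 * T ^ 2 + 2) ^ d := by
      intro u hu
      have hu' : ∑ v, u v = 2 * s := (Finset.mem_filter.mp hu).2
      have h1 := card_pack hr (I u) (ρ ^ 2) (R ^ 2) (by positivity) (by positivity) (by
        rw [← hddef, ← pow_mul, mul_comm 2 d, pow_mul, hρd, hIN, hu']
        push_cast
        rw [← pow_mul, mul_comm]) ((A * A).filter (fun z => z ∈ I u)) (fun z hz =>
          ⟨(Finset.mem_filter.mp hz).2, hbd z (Finset.mem_filter.mp hz).1⟩)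
      rw [← hddef] at h1
      have h3 : R ^ 2 / ρ ^ 2 = T ^ 2 := by
        simp only [R]
        rw [mul_pow, mul_div_assoc, div_self (by positivity), mul_one]
      rwa [h3] at h1
    have hcard2 : (sl2.card : ℝ) ≤ (2 * r + 1) ^ d := by
      have h1 : sl2.card ≤ box2.card := Finset.card_le_card (Finset.filter_subset _ _)
      have h3 : box2.card = (2 * r + 1) ^ d := by
        simp only [box2, Fintype.card_piFinset, Finset.card_range, Finset.prod_const,
          Finset.card_univ, hVcard]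
      rw [h3] at h1
      exact_mod_cast h1
    calc ((A * A).card : ℝ) ≤ ((sl2.biUnion (fun u => (A * A).filter (fun z => z ∈ I u))).card : ℝ) := by
          exact_mod_cast Finset.card_le_card hcover
      _ ≤ ∑ u ∈ sl2, (((A * A).filter (fun z => z ∈ I u)).card : ℝ) := by
          exact_mod_cast Finset.card_biUnion_le
      _ ≤ sl2.card • ((2 * T ^ 2 + 2) ^ d : ℝ) := Finset.sum_le_card_nsmul _ _ _ hone
      _ = sl2.card * (2 * T ^ 2 + 2) ^ d := nsmul_eq_mul _ _
      _ ≤ (2 * r + 1) ^ d * (2 * T ^ 2 + 2) ^ d := mul_le_mul_of_nonneg_right hcard2 (by positivity)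
      _ = _ := by rw [← mul_pow]

end main

end Pool.Agent.U516.SP
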