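import Mathlib
import Pool.Agent.U516.SP.Core2
import Pool.Agent.TeamU.G8

/-! The sum-product conjecture over the reals fails (from the tower). -/

set_option autoImplicit false

open NumberField NumberField.InfinitePlace Module IsDedekindDomain
open Pool.Agent.TeamU Filter Topology
open scoped Pointwise NNReal

namespace Pool.Agent.U516.SP

/-- subsets and images -/
theorem to_real {L : Type} [Field L] [NumberField L] [DecidableEq (𝓞 L)] (hr : IsTotallyReal L)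
    (A : Finset (𝓞 L)) (n : ℕ) (hn : n ≤ A.card) :
    ∃ B : Finset ℝ, B.card = n ∧ (∀ b ∈ B, IsIntegral ℤ b) ∧ (B + B).card ≤ (A + A).card ∧
      (B * B).card ≤ (A * A).card := by
  obtain ⟨A', hA', hcard⟩ := Finset.exists_subset_card_eq hn
  obtain ⟨w⟩ : Nonempty (InfinitePlace L) := inferInstance
  let φ : 𝓞 L →+* ℝ := (embedding_of_isReal (hr.isReal w)).comp (algebraMap (𝓞 L) L)
  have hφ : Function.Injective φ := by
    refine (embedding_of_isReal (hr.isReal w)).injective.comp ?_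
    exact RingOfIntegers.coe_injective
  refine ⟨A'.image φ, by rw [Finset.card_image_of_injective _ hφ, hcard], ?_, ?_, ?_⟩
  · intro b hb
    obtain ⟨x, -, rfl⟩ := Finset.mem_image.mp hb
    exact map_isIntegral_int (embedding_of_isReal (hr.isReal w)) (RingOfIntegers.isIntegral_coe x)
  · rw [← Finset.image_add φ]
    exact Finset.card_image_le.trans (Finset.card_le_card (Finset.add_subset_add hA' hA'))
  · rw [← Finset.image_mul φ]
    exact Finset.card_image_le.trans (Finset.card_le_card (Finset.mul_subset_mul hA' hA'))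

theorem exists_d0 (r : ℕ) : ∃ d0 : ℕ, ∀ d : ℕ, d0 ≤ d → 16 * ((r : ℝ) * d + 1) ^ 2 ≤ 2 ^ d := by
  have h : Tendsto (fun d : ℕ => ((d : ℝ) + 1) ^ 2 / 2 ^ d) atTop (𝓝 0) := by
    have h1 := tendsto_pow_const_div_const_pow_of_one_lt 2 (r := (2 : ℝ)) (by norm_num)
    have h2 := h1.comp (tendsto_add_atTop_nat 1)
    have h3 := h2.const_mul 2
    rw [mul_zero] at h3
    refine h3.congr fun d => ?_
    simp only [Function.comp]
    push_cast
    rw [pow_succ (2 : ℝ) d]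
    field_simp
  have h2 : 0 < 1 / (16 * ((r : ℝ) + 1) ^ 2) := by positivity
  obtain ⟨d0, hd0⟩ := (h.eventually_lt_const h2).exists_forall_of_atTop
  refine ⟨d0, fun d hd => ?_⟩
  have h3 := hd0 d hd
  rw [div_lt_div_iff₀ (by positivity) (by positivity), one_mul] at h3
  have h4 : (r : ℝ) * d + 1 ≤ ((r : ℝ) + 1) * (d + 1) := by
    have h5 : (0 : ℝ) ≤ r := Nat.cast_nonneg r
    have h6 : (0 : ℝ) ≤ d := Nat.cast_nonneg d
    nlinarith
  calc 16 * ((r : ℝ) * d + 1) ^ 2 ≤ 16 * (((r : ℝ) + 1) * (d + 1)) ^ 2 := by gcongr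
    _ = ((d : ℝ) + 1) ^ 2 * (16 * ((r : ℝ) + 1) ^ 2) := by ring
    _ ≤ 2 ^ d := h3.le

/-- the numbers for one field -/
theorem one_field (C r : ℕ) (hC : 1 ≤ C) (hrC : 64 * (24 * C) ^ 2 ≤ r + 1) {L : Type} [Field L]
    [NumberField L] [DecidableEq (𝓞 L)] (hr : IsTotallyReal L) (h2 : TwoSplit L)
    (hdisc : (discr L).natAbs ≤ C ^ finrank ℚ L)
    (hd : 16 * ((r : ℝ) * finrank ℚ L + 1) ^ 2 ≤ 2 ^ finrank ℚ L)
    (n : ℕ) (hn : (r + 1) ^ finrank ℚ L ≤ n) :
    ∃ A : Finset (𝓞 L), n ≤ A.card ∧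
      ((A + A).card : ℝ) ≤ (12 * 2 ^ r * (24 * C)) ^ finrank ℚ L * n ∧
      ((A * A).card : ℝ) * 4 ^ finrank ℚ L ≤ (n : ℝ) ^ 2 := by
  set d := finrank ℚ L with hddef
  have hdpos : 0 < d := finrank_pos
  have hd0 : (d : ℝ) ≠ 0 := by exact_mod_cast hdpos.ne'
  have hC0 : (1 : ℝ) ≤ C := by exact_mod_cast hC
  have hn1 : (1 : ℝ) ≤ n := by
    have : 1 ≤ (r + 1) ^ d := Nat.one_le_pow _ _ (by omega)
    exact_mod_cast this.trans hn
  have hn' : ((r : ℝ) + 1) ^ d ≤ n := by exact_mod_cast hn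
  have hr0 : (0 : ℝ) ≤ r := Nat.cast_nonneg r
  have hq1 : (1 : ℝ) ≤ r * d + 1 := by
    have : (0 : ℝ) ≤ r * d := by positivity
    linarith
  set X : ℝ := (24 * C) ^ d * (4 * (r * d + 1)) * n / (r + 1) ^ d with hX
  have hX0 : 0 < X := by positivity
  have hX1 : (24 * C : ℝ) ^ d * 4 ≤ X := by
    rw [hX, le_div_iff₀ (by positivity)]
    have h1 : (24 * C : ℝ) ^ d * 4 ≤ (24 * C : ℝ) ^ d * (4 * (r * d + 1)) := by
      refine mul_le_mul_of_nonneg_left ?_ (by positivity)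
      linarith
    exact mul_le_mul h1 hn' (by positivity) (by positivity)
  have h24 : (1 : ℝ) ≤ (24 * C) ^ d := one_le_pow₀ (by linarith)
  set τ : ℝ := X ^ ((1 : ℝ) / d) with hTdef
  have hT0 : 0 < τ := Real.rpow_pos_of_pos hX0 _
  have hTd : τ ^ d = X := by
    rw [hTdef, ← Real.rpow_natCast, ← Real.rpow_mul hX0.le, one_div, inv_mul_cancel₀ hd0,
      Real.rpow_one]
  have hX1' : 1 ≤ X := by linarith
  have hT1 : 1 ≤ τ := Real.one_le_rpow hX1' (by positivity)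
  have hdiscR : |(discr L : ℝ)| ≤ (C : ℝ) ^ d := by
    have h6 : |(discr L : ℝ)| = ((discr L).natAbs : ℝ) := by
      rw [Nat.cast_natAbs]; push_cast; rfl
    rw [h6]
    exact_mod_cast hdisc
  have hsqrt : √|(discr L : ℝ)| ≤ (C : ℝ) ^ d := by
    have h1 : √|(discr L : ℝ)| ≤ √((C : ℝ) ^ d) := Real.sqrt_le_sqrt hdiscR
    have h3 : √((C : ℝ) ^ d) ≤ (C : ℝ) ^ d := by
      rw [Real.sqrt_le_left (by positivity)]
      have : (1 : ℝ) ≤ (C : ℝ) ^ d := one_le_pow₀ hC0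
      nlinarith
    exact h1.trans h3
  obtain ⟨A, hA1, hA2, hA3⟩ := core2 (L := L) hr h2 r τ hT1 (by
    rw [← hddef, hTd]
    calc 2 * √|(discr L : ℝ)| ≤ 2 * (C : ℝ) ^ d := by linarith
      _ ≤ (24 * C : ℝ) ^ d * 4 := by
          have : (C : ℝ) ^ d ≤ (24 * C : ℝ) ^ d := pow_le_pow_left₀ (by positivity) (by linarith) _
          nlinarith [pow_nonneg (by positivity : (0 : ℝ) ≤ C) d]
      _ ≤ X := hX1)
  rw [← hddef] at hA1 hA2 hA3
  refine ⟨A, ?_, ?_, ?_⟩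
  · -- size
    have h1 : (((r : ℝ) + 1) * τ) ^ d = (24 * C) ^ d * (4 * (r * d + 1)) * n := by
      rw [mul_pow, hTd, hX]
      field_simp
    rw [h1] at hA1
    have h3 : (A.card : ℝ) * (4 * (r * d + 1) * 24 ^ d * |(discr L : ℝ)|) ≤
        A.card * ((24 * C) ^ d * (4 * (r * d + 1))) := by
      refine mul_le_mul_of_nonneg_left ?_ (Nat.cast_nonneg _)
      calc 4 * ((r : ℝ) * d + 1) * 24 ^ d * |(discr L : ℝ)| ≤ 4 * ((r : ℝ) * d + 1) * 24 ^ d * (C : ℝ) ^ d :=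
            mul_le_mul_of_nonneg_left hdiscR (by positivity)
        _ = _ := by rw [mul_pow]; ring
    have h4 := hA1.trans h3
    have h5 : (0 : ℝ) < (24 * C) ^ d * (4 * (r * d + 1)) := by positivity
    have h6 : (n : ℝ) ≤ A.card := by
      rw [mul_comm (A.card : ℝ)] at h4
      exact le_of_mul_le_mul_left h4 h5
    exact_mod_cast h6
  · -- sums
    have h4q : 4 * ((r : ℝ) * d + 1) ≤ 2 ^ d := by
      have : ((r : ℝ) * d + 1) ≤ ((r : ℝ) * d + 1) ^ 2 := by nlinarith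
      linarith
    calc ((A + A).card : ℝ) ≤ (4 * τ * 2 ^ r + 2) ^ d := hA2
      _ ≤ (6 * 2 ^ r * τ) ^ d := by
          refine pow_le_pow_left₀ (by positivity) ?_ _
          have h1 : (1 : ℝ) ≤ 2 ^ r := one_le_pow₀ (by norm_num)
          nlinarith
      _ = (6 * 2 ^ r) ^ d * X := by rw [mul_pow _ τ, hTd]
      _ ≤ (6 * 2 ^ r) ^ d * ((24 * C) ^ d * (4 * (r * d + 1)) * n) := by
          refine mul_le_mul_of_nonneg_left ?_ (by positivity)
          rw [hX]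
          exact div_le_self (by positivity) (one_le_pow₀ (by linarith))
      _ ≤ (6 * 2 ^ r) ^ d * ((24 * C) ^ d * 2 ^ d * n) := by gcongr
      _ = (12 * 2 ^ r * (24 * C)) ^ d * n := by
          rw [show (12 * 2 ^ r * (24 * C) : ℝ) = (6 * 2 ^ r) * ((24 * C) * 2) by ring,
            mul_pow (6 * 2 ^ r : ℝ), mul_pow (24 * C : ℝ)]
          ring
  · -- products
    have hrC' : 64 * (24 * (C : ℝ)) ^ 2 ≤ r + 1 := by exact_mod_cast hrC
    have hr1 : (0 : ℝ) < r + 1 := by linarith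
    calc ((A * A).card : ℝ) * 4 ^ d ≤ ((2 * r + 1) * (2 * τ ^ 2 + 2)) ^ d * 4 ^ d :=
          mul_le_mul_of_nonneg_right hA3 (by positivity)
      _ ≤ ((2 * (r + 1)) * (4 * τ ^ 2)) ^ d * 4 ^ d := by
          refine mul_le_mul_of_nonneg_right ?_ (by positivity)
          refine pow_le_pow_left₀ (by positivity) ?_ _
          refine mul_le_mul (by linarith) (by nlinarith) (by positivity) (by positivity)
      _ = (32 * (r + 1)) ^ d * X ^ 2 := by
          rw [← hTd, ← mul_pow, ← pow_mul, mul_comm d 2, pow_mul, ← mul_pow]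
          congr 1; ring
      _ = ((24 * C) ^ 2 * 32 / (r + 1)) ^ d * (16 * (r * d + 1) ^ 2) * n ^ 2 := by
          have e : ((24 * (C : ℝ)) ^ 2 * 32 / (r + 1)) ^ d =
              ((24 * (C : ℝ)) ^ d) ^ 2 * 32 ^ d / (r + 1) ^ d := by
            rw [div_pow, mul_pow _ (32 : ℝ), ← pow_mul, ← pow_mul, mul_comm 2 d]
          rw [e, hX, mul_pow (32 : ℝ)]
          field_simp
          ring
      _ ≤ (1 / 2) ^ d * 2 ^ d * n ^ 2 := by
          refine mul_le_mul_of_nonneg_right ?_ (by positivity)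
          refine mul_le_mul (pow_le_pow_left₀ (by positivity) ?_ _) hd (by positivity) (by positivity)
          rw [div_le_div_iff₀ hr1 (by norm_num)]
          linarith
      _ = (n : ℝ) ^ 2 := by rw [← mul_pow]; norm_num

/-- **Sets with few sums and few products in the tower.** -/
theorem main_field (hT : TowerS) : ∃ c : ℝ, 0 < c ∧ ∀ δ : ℝ, 0 < δ → δ ≤ 1 →
    ∃ n₀ : ℕ, ∀ n : ℕ, n₀ ≤ n → ∃ (L : Type) (_ : Field L) (_ : NumberField L)
      (_ : DecidableEq (𝓞 L)) (A : Finset (𝓞 L)), IsTotallyReal L ∧ n ≤ A.card ∧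
      ((A + A).card : ℝ) ≤ (n : ℝ) ^ (1 + δ) ∧ ((A * A).card : ℝ) ≤ (n : ℝ) ^ (2 - c * δ) := by
  classical
  obtain ⟨C', m, hm, hT⟩ := hT
  set C := max C' 1 with hCdef
  have hC : 1 ≤ C := le_max_right _ _
  set r : ℕ := 64 * (24 * C) ^ 2 with hrdef
  obtain ⟨d0, hd0⟩ := exists_d0 r
  set B : ℝ := 12 * 2 ^ r * (24 * C) with hB
  have hC0 : (1 : ℝ) ≤ C := by exact_mod_cast hC
  have h2r : (1 : ℝ) ≤ 2 ^ r := one_le_pow₀ (by norm_num)
  have hrB : (r : ℝ) + 1 ≤ B := by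
    have h1 : (r : ℝ) + 1 ≤ 2 ^ r := by exact_mod_cast Nat.lt_two_pow_self (n := r)
    have h3 : (2 : ℝ) ^ r ≤ B := by rw [hB]; nlinarith
    linarith
  have hB1 : 1 < B := by rw [hB]; nlinarith
  have hlB : 0 < Real.log B := Real.log_pos hB1
  have hl4 : 0 < Real.log 4 := Real.log_pos (by norm_num)
  refine ⟨Real.log 4 / (2 * Real.log B), by positivity, fun δ hδ0 hδ1 => ?_⟩
  set D : ℕ := max d0 m with hD
  obtain ⟨n1, hn1⟩ := exists_nat_ge (Real.exp (Real.log B * (m * 2 ^ D) / δ))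
  refine ⟨max n1 1, fun n hn => ?_⟩
  have hn0 : 1 ≤ n := le_trans (le_max_right _ _) hn
  have hn0' : (0 : ℝ) < n := by exact_mod_cast hn0
  have hnlog : Real.log B * (m * 2 ^ D) / δ ≤ Real.log n := by
    rw [Real.le_log_iff_exp_le hn0']
    refine hn1.trans ?_
    exact_mod_cast le_trans (le_max_left _ _) hn
  -- choose `j`
  have hbase : Real.log B * (m * 2 ^ D) ≤ δ * Real.log n := by
    rw [div_le_iff₀ hδ0] at hnlog
    linarith
  obtain ⟨j, hjD, hj1, hj2⟩ : ∃ j : ℕ, D ≤ j ∧ Real.log B * (m * 2 ^ j) ≤ δ * Real.log n ∧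
      δ * Real.log n < Real.log B * (m * 2 ^ (j + 1)) := by
    by_contra hcon
    push Not at hcon
    have hall : ∀ j : ℕ, D ≤ j → Real.log B * (m * 2 ^ j) ≤ δ * Real.log n := by
      intro j hj
      induction j, hj using Nat.le_induction with
      | base => exact hbase
      | succ j hj ih => exact hcon j hj ih
    have hlim : Tendsto (fun j : ℕ => Real.log B * ((m : ℝ) * 2 ^ j)) atTop atTop := by
      refine Tendsto.const_mul_atTop hlB (Tendsto.const_mul_atTop (by exact_mod_cast hm) ?_)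
      exact tendsto_pow_atTop_atTop_of_one_lt (by norm_num)
    obtain ⟨J, hJ⟩ := ((hlim.eventually_gt_atTop (δ * Real.log n)).and
      (eventually_ge_atTop D)).exists
    linarith [hall J hJ.2, hJ.1]
  obtain ⟨L, i1, i2, hr, h2, hdeg, hdisc⟩ := hT j
  have hdL : d0 ≤ finrank ℚ L := by
    rw [hdeg]
    have h1 : d0 ≤ j := le_trans (le_max_left _ _) hjD
    have h3 : j < 2 ^ j := Nat.lt_two_pow_self
    nlinarith
  have hdisc' : (discr L).natAbs ≤ C ^ finrank ℚ L :=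
    hdisc.trans (Nat.pow_le_pow_left (le_max_left _ _) _)
  set d := finrank ℚ L with hddef
  have hdR : (d : ℝ) = m * 2 ^ j := by rw [hdeg]; push_cast; ring
  rw [pow_succ] at hj2
  have hj1' : Real.log B * d ≤ δ * Real.log n := by rw [hdR]; exact hj1
  have hj2' : δ * Real.log n < Real.log B * (2 * d) := by
    rw [hdR]; linarith
  have hlogn : 0 ≤ Real.log n := Real.log_nonneg (by exact_mod_cast hn0)
  have hBn : B ^ d ≤ (n : ℝ) ^ δ := by
    rw [Real.rpow_def_of_pos hn0', ← Real.rpow_natCast, Real.rpow_def_of_pos (by linarith)]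
    rw [Real.exp_le_exp]
    linarith
  have hn' : (r + 1) ^ d ≤ n := by
    have h1 : ((r : ℝ) + 1) ^ d ≤ n := by
      calc ((r : ℝ) + 1) ^ d ≤ B ^ d := pow_le_pow_left₀ (by positivity) hrB _
        _ ≤ (n : ℝ) ^ δ := hBn
        _ ≤ (n : ℝ) ^ (1 : ℝ) := Real.rpow_le_rpow_of_exponent_le (by exact_mod_cast hn0) hδ1
        _ = n := Real.rpow_one _
    exact_mod_cast h1
  obtain ⟨A, hA1, hA2, hA3⟩ := one_field C r hC (by omega) hr h2 hdisc' (hd0 d hdL) n hn'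
  refine ⟨L, i1, i2, inferInstance, A, hr, hA1, ?_, ?_⟩
  · calc ((A + A).card : ℝ) ≤ B ^ d * n := hA2
      _ ≤ (n : ℝ) ^ δ * n := mul_le_mul_of_nonneg_right hBn hn0'.le
      _ = (n : ℝ) ^ (1 + δ) := by rw [Real.rpow_add hn0', Real.rpow_one, mul_comm]
  · have h4 : (n : ℝ) ^ (Real.log 4 / (2 * Real.log B) * δ) ≤ 4 ^ d := by
      rw [Real.rpow_def_of_pos hn0', ← Real.rpow_natCast, Real.rpow_def_of_pos (by norm_num : (0 : ℝ) < 4),
        Real.exp_le_exp]
      have h5 : Real.log n * (Real.log 4 / (2 * Real.log B) * δ) =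
          Real.log 4 * ((δ * Real.log n) / (2 * Real.log B)) := by field_simp
      rw [h5]
      refine mul_le_mul_of_nonneg_left ?_ hl4.le
      rw [div_le_iff₀ (by positivity)]
      linarith
    have hpos : 0 < (n : ℝ) ^ (Real.log 4 / (2 * Real.log B) * δ) := Real.rpow_pos_of_pos hn0' _
    rw [Real.rpow_sub hn0', le_div_iff₀ hpos]
    calc ((A * A).card : ℝ) * (n : ℝ) ^ (Real.log 4 / (2 * Real.log B) * δ)
        ≤ (A * A).card * 4 ^ d := mul_le_mul_of_nonneg_left h4 (Nat.cast_nonneg _)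
      _ ≤ (n : ℝ) ^ 2 := hA3
      _ = (n : ℝ) ^ (2 : ℝ) := by norm_num

/-- **The sum-product conjecture over the reals fails.** -/
theorem main2 (hT : TowerS) : ∃ c : ℝ, 0 < c ∧ ∀ δ : ℝ, 0 < δ → δ ≤ 1 →
    ∃ n₀ : ℕ, ∀ n : ℕ, n₀ ≤ n → ∃ A : Finset ℝ, A.card = n ∧ (∀ a ∈ A, IsIntegral ℤ a) ∧
      ((A + A).card : ℝ) ≤ (n : ℝ) ^ (1 + δ) ∧ ((A * A).card : ℝ) ≤ (n : ℝ) ^ (2 - c * δ) := by
  obtain ⟨c, hc, h⟩ := main_field hT
  refine ⟨c, hc, fun δ h0 h1 => ?_⟩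
  obtain ⟨n₀, hn₀⟩ := h δ h0 h1
  refine ⟨n₀, fun n hn => ?_⟩
  obtain ⟨L, _, _, _, A, hr, hA, hs, hp⟩ := hn₀ n hn
  obtain ⟨B, hB1, hB2, hB3, hB4⟩ := to_real hr A n hA
  exact ⟨B, hB1, hB2, le_trans (by exact_mod_cast hB3) hs, le_trans (by exact_mod_cast hB4) hp⟩

end Pool.Agent.U516.SP
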