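import Mathlib

/-! The divisor bound for ideals, uniform in the number field. -/

set_option autoImplicit false

open NumberField Module UniqueFactorizationMonoid

namespace Pool.Agent.U516.SP

theorem absNorm_prime_ge {K : Type} [Field K] [NumberField K] {p : Ideal (𝓞 K)} (hp : Prime p) :
    2 ≤ Ideal.absNorm p := by
  have h0 : Ideal.absNorm p ≠ 0 := by
    rw [Ne, Ideal.absNorm_eq_zero_iff]
    exact hp.ne_zero
  have h1 : Ideal.absNorm p ≠ 1 := by
    rw [Ne, Ideal.absNorm_eq_one_iff]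
    intro h
    exact hp.not_unit (Ideal.isUnit_iff.mpr h)
  omega

/-- at most `[K : ℚ]` primes have a given norm -/
theorem card_norm_eq {K : Type} [Field K] [NumberField K] (s : Finset (Ideal (𝓞 K)))
    (hs : ∀ p ∈ s, Prime p) (q : ℕ) (hq : ∀ p ∈ s, Ideal.absNorm p = q) :
    s.card ≤ finrank ℚ K := by
  rcases s.eq_empty_or_nonempty with rfl | ⟨p₀, hp₀⟩
  · simp
  have hq2 : 2 ≤ q := by rw [← hq p₀ hp₀]; exact absNorm_prime_ge (hs p₀ hp₀)
  have h1 : ∏ p ∈ s, p ∣ Ideal.span {((q : ℕ) : 𝓞 K)} := by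
    refine Finset.prod_primes_dvd _ hs fun p hp => ?_
    rw [Ideal.dvd_span_singleton, ← hq p hp]
    exact Ideal.absNorm_mem p
  have h2 := map_dvd Ideal.absNorm h1
  rw [map_prod, Finset.prod_congr rfl hq, Finset.prod_const, Ideal.absNorm_span_natCast,
    RingOfIntegers.rank] at h2
  have h3 := Nat.le_of_dvd (by positivity) h2
  exact (Nat.pow_le_pow_iff_right (by omega)).mp h3

/-- at most `[K : ℚ] P` primes have norm less than `P` -/
theorem card_small {K : Type} [Field K] [NumberField K] (s : Finset (Ideal (𝓞 K)))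
    (hs : ∀ p ∈ s, Prime p) (P : ℕ) (hq : ∀ p ∈ s, Ideal.absNorm p < P) :
    s.card ≤ finrank ℚ K * P := by
  classical
  have h1 : s.card ≤ ∑ q ∈ Finset.range P, (s.filter fun p => Ideal.absNorm p = q).card := by
    rw [← Finset.card_eq_sum_card_fiberwise (f := fun p => Ideal.absNorm p) (t := Finset.range P)]
    intro p hp
    exact Finset.mem_coe.mpr (Finset.mem_range.mpr (hq p (Finset.mem_coe.mp hp)))
  refine h1.trans ?_
  calc ∑ q ∈ Finset.range P, (s.filter fun p => Ideal.absNorm p = q).card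
      ≤ ∑ _q ∈ Finset.range P, finrank ℚ K := by
        refine Finset.sum_le_sum fun q _ => card_norm_eq _ (fun p hp => hs p
          (Finset.mem_filter.mp hp).1) q (fun p hp => (Finset.mem_filter.mp hp).2)
    _ = finrank ℚ K * P := by simp [mul_comm]

theorem exp_bound (κ : ℝ) (hκ : 0 < κ) (e : ℕ) : (e : ℝ) + 1 ≤ (1 + 2 / κ) * 2 ^ (κ * e) := by
  have h1 : 1 + κ * e * Real.log 2 ≤ (2 : ℝ) ^ (κ * e) := by
    rw [Real.rpow_def_of_pos (by norm_num)]
    have := Real.add_one_le_exp (Real.log 2 * (κ * e))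
    linarith
  have hl : (1 : ℝ) / 2 ≤ Real.log 2 := by
    have := Real.log_two_gt_d9
    linarith
  have he : (0 : ℝ) ≤ e := Nat.cast_nonneg e
  have h2 : (1 + 2 / κ) * (1 + κ * e * Real.log 2) ≤ (1 + 2 / κ) * 2 ^ (κ * e) :=
    mul_le_mul_of_nonneg_left h1 (by positivity)
  refine le_trans ?_ h2
  have h3 : (1 + 2 / κ) * (1 + κ * e * Real.log 2) =
      1 + 2 / κ + κ * e * Real.log 2 + 2 * e * Real.log 2 := by
    field_simp
    ring
  rw [h3]
  have h4 : 0 ≤ κ * e * Real.log 2 := by positivity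
  have h5 : 0 ≤ 2 / κ := by positivity
  nlinarith

/-- **The divisor bound**: an ideal of a field of degree `m` has at most `D ^ m N ^ κ` divisors. -/
theorem divisors_eps (κ : ℝ) (hκ : 0 < κ) : ∃ D : ℝ, 1 ≤ D ∧ ∀ (K : Type) [Field K] [NumberField K]
    (J : Ideal (𝓞 K)), J ≠ ⊥ → ∃ F : Finset (Ideal (𝓞 K)), (∀ b, b ∣ J → b ∈ F) ∧
      (F.card : ℝ) ≤ D ^ finrank ℚ K * (Ideal.absNorm J : ℝ) ^ κ := by
  classical
  obtain ⟨P, hP⟩ := exists_nat_ge ((2 : ℝ) ^ (1 / κ))
  have hP0 : (0 : ℝ) < P := lt_of_lt_of_le (Real.rpow_pos_of_pos (by norm_num) _) hP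
  have hPκ : (2 : ℝ) ≤ (P : ℝ) ^ κ := by
    calc (2 : ℝ) = ((2 : ℝ) ^ (1 / κ)) ^ κ := by
          rw [← Real.rpow_mul (by norm_num), one_div, inv_mul_cancel₀ hκ.ne', Real.rpow_one]
      _ ≤ (P : ℝ) ^ κ := Real.rpow_le_rpow (by positivity) hP hκ.le
  set B : ℝ := 1 + 2 / κ with hB
  have hB1 : 1 ≤ B := by
    have : 0 < 2 / κ := by positivity
    rw [hB]; linarith
  refine ⟨B ^ P, one_le_pow₀ hB1, ?_⟩
  intro K _ _ J hJ
  set s := normalizedFactors J with hs
  refine ⟨(Finset.Iic s).image Multiset.prod, fun b hb => ?_, ?_⟩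
  · have hb0 : b ≠ ⊥ := by
      rintro rfl
      rw [← Ideal.zero_eq_bot, zero_dvd_iff] at hb
      exact hJ (by rw [hb, Ideal.zero_eq_bot])
    refine Finset.mem_image.mpr ⟨normalizedFactors b, ?_, Ideal.prod_normalizedFactors_eq_self hb0⟩
    rw [Finset.mem_Iic, hs]
    exact (dvd_iff_normalizedFactors_le_normalizedFactors hb0 hJ).mp hb
  · have hprime : ∀ p ∈ s.toFinset, Prime p := fun p hp =>
      prime_of_normalized_factor p (Multiset.mem_toFinset.mp hp)
    have h1 : (((Finset.Iic s).image Multiset.prod).card : ℝ) ≤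
        ∏ p ∈ s.toFinset, ((s.count p : ℝ) + 1) := by
      have : ((Finset.Iic s).image Multiset.prod).card ≤ ∏ p ∈ s.toFinset, (s.count p + 1) := by
        rw [← Multiset.card_Iic]
        exact Finset.card_image_le
      exact_mod_cast this
    let g : Ideal (𝓞 K) → ℝ := fun p => if Ideal.absNorm p < P then B else 1
    have h2 : ∀ p ∈ s.toFinset, ((s.count p : ℝ) + 1) ≤
        g p * ((Ideal.absNorm p : ℝ) ^ (s.count p)) ^ κ := by
      intro p hp
      have h2p : 2 ≤ Ideal.absNorm p := absNorm_prime_ge (hprime p hp)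
      have h2p' : (2 : ℝ) ≤ Ideal.absNorm p := by exact_mod_cast h2p
      set e := s.count p
      by_cases hlt : Ideal.absNorm p < P
      · simp only [g, if_pos hlt]
        refine (exp_bound κ hκ e).trans (mul_le_mul_of_nonneg_left ?_ (by linarith))
        rw [mul_comm, Real.rpow_mul (by norm_num), Real.rpow_natCast]
        exact Real.rpow_le_rpow (by positivity) (pow_le_pow_left₀ (by norm_num) h2p' _) hκ.le
      · simp only [g, if_neg hlt, one_mul]
        have hge : (P : ℝ) ≤ Ideal.absNorm p := by exact_mod_cast not_lt.mp hlt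
        calc ((e : ℝ) + 1) ≤ 2 ^ e := by exact_mod_cast Nat.lt_two_pow_self (n := e)
          _ ≤ (((Ideal.absNorm p : ℝ)) ^ κ) ^ e := by
              refine pow_le_pow_left₀ (by norm_num) (hPκ.trans ?_) _
              exact Real.rpow_le_rpow hP0.le hge hκ.le
          _ = _ := by
              rw [← Real.rpow_natCast, ← Real.rpow_natCast, ← Real.rpow_mul (by positivity),
                ← Real.rpow_mul (by positivity), mul_comm]
    have h3 : ∏ p ∈ s.toFinset, g p ≤ (B ^ P) ^ finrank ℚ K := by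
      simp only [g]
      rw [Finset.prod_ite, Finset.prod_const, Finset.prod_const_one, mul_one, ← pow_mul, mul_comm P]
      refine pow_le_pow_right₀ hB1 (card_small _ (fun p hp => hprime p
        (Finset.mem_filter.mp hp).1) P fun p hp => (Finset.mem_filter.mp hp).2)
    have h4 : ∏ p ∈ s.toFinset, ((Ideal.absNorm p : ℝ) ^ (s.count p)) = Ideal.absNorm J := by
      rw [← Ideal.prod_normalizedFactors_eq_self hJ, ← hs, map_multiset_prod,
        Finset.prod_multiset_map_count]
      push_cast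
      rfl
    calc (((Finset.Iic s).image Multiset.prod).card : ℝ)
        ≤ ∏ p ∈ s.toFinset, ((s.count p : ℝ) + 1) := h1
      _ ≤ ∏ p ∈ s.toFinset, (g p * ((Ideal.absNorm p : ℝ) ^ (s.count p)) ^ κ) :=
          Finset.prod_le_prod (fun p _ => by positivity) h2
      _ = (∏ p ∈ s.toFinset, g p) * (Ideal.absNorm J : ℝ) ^ κ := by
          rw [Finset.prod_mul_distrib, Real.finset_prod_rpow _ _ (fun p _ => by positivity), h4]
      _ ≤ _ := mul_le_mul_of_nonneg_right h3 (by positivity)

end Pool.Agent.U516.SP
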