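import Mathlib
import Pool.Agent.U516.SP.Thr1

/-! Elements of bounded height which generate a given ideal. -/

set_option autoImplicit false

open NumberField Module UniqueFactorizationMonoid

namespace Pool.Agent.U516.SP

/-- the height of an algebraic integer relative to the field `K` -/
noncomputable def Ht {K : Type} [Field K] [NumberField K] (x : K) : ℝ :=
  ∏ φ : K →+* ℂ, max 1 ‖φ x‖

section
variable {K : Type} [Field K] [NumberField K]

theorem prod_norm (x : K) : ∏ φ : K →+* ℂ, ‖φ x‖ = |((Algebra.norm ℚ x : ℚ) : ℝ)| := by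
  have h := Algebra.norm_eq_prod_embeddings ℚ ℂ x
  have h1 : ∏ φ : K →+* ℂ, ‖φ x‖ = ∏ σ : K →ₐ[ℚ] ℂ, ‖σ x‖ :=
    Fintype.prod_equiv (RingHom.equivRatAlgHom K ℂ) _ _ fun φ => rfl
  rw [h1, ← norm_prod, ← h]
  simp

theorem absNorm_eq_prod (x : 𝓞 K) : ((Ideal.absNorm (Ideal.span {x}) : ℕ) : ℝ) =
    ∏ φ : K →+* ℂ, ‖φ (x : K)‖ := by
  rw [Ideal.absNorm_span_singleton, prod_norm]
  have h2 : ((Algebra.norm ℤ x).natAbs : ℝ) = |((Algebra.norm ℚ (x : K) : ℚ) : ℝ)| := by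
    rw [← Algebra.coe_norm_int x, Nat.cast_natAbs]
    push_cast
    rfl
  rw [h2]

theorem one_le_Ht (x : K) : 1 ≤ Ht x := Finset.one_le_prod fun _ _ => le_max_left _ _

theorem prod_le_Ht (x : K) : ∏ φ : K →+* ℂ, ‖φ x‖ ≤ Ht x :=
  Finset.prod_le_prod (fun _ _ => norm_nonneg _) fun _ _ => le_max_right _ _

theorem absNorm_pos {x : 𝓞 K} (hx : x ≠ 0) : 1 ≤ Ideal.absNorm (Ideal.span {x}) := by
  refine Nat.one_le_iff_ne_zero.mpr ?_
  rw [Ne, Ideal.absNorm_eq_zero_iff, Ideal.span_singleton_eq_bot]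
  exact hx

/-- the label of a number -/
noncomputable def lab (z : ℂ) : ℤ × ℤ × ℤ :=
  (Int.log 2 ‖z‖, ⌊2 * z.re / 2 ^ Int.log 2 ‖z‖⌋, ⌊2 * z.im / 2 ^ Int.log 2 ‖z‖⌋)

theorem lab_mem {z : ℂ} (hz : z ≠ 0) :
    (lab z).2.1 ∈ Finset.Icc (-4 : ℤ) 4 ∧ (lab z).2.2 ∈ Finset.Icc (-4 : ℤ) 4 := by
  have h0 : 0 < ‖z‖ := norm_pos_iff.mpr hz
  have h1 := Int.lt_zpow_succ_log_self (b := 2) (by norm_num) ‖z‖
  push_cast at h1
  rw [zpow_add_one₀ (by norm_num)] at h1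
  have hp : (0 : ℝ) < 2 ^ Int.log 2 ‖z‖ := by positivity
  have key : ∀ y : ℝ, |y| ≤ ‖z‖ → ⌊2 * y / 2 ^ Int.log 2 ‖z‖⌋ ∈ Finset.Icc (-4 : ℤ) 4 := by
    intro y hy
    rw [abs_le] at hy
    rw [Finset.mem_Icc, Int.le_floor]
    have h4 : -4 ≤ 2 * y / 2 ^ Int.log 2 ‖z‖ := by
      rw [le_div_iff₀ hp]; linarith
    have h5 : 2 * y / 2 ^ Int.log 2 ‖z‖ ≤ 4 := by
      rw [div_le_iff₀ hp]; linarith
    refine ⟨by exact_mod_cast h4, ?_⟩
    have := Int.floor_mono h5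
    rwa [show (4 : ℝ) = ((4 : ℤ) : ℝ) by norm_num, Int.floor_intCast] at this
  exact ⟨key _ (Complex.abs_re_le_norm z), key _ (Complex.abs_im_le_norm z)⟩

theorem lab_close {z z' : ℂ} (hz : z ≠ 0) (h : lab z = lab z') : ‖z - z'‖ < ‖z‖ := by
  have h0 : 0 < ‖z‖ := norm_pos_iff.mpr hz
  have h1 := Int.zpow_log_le_self (b := 2) (by norm_num) h0
  push_cast at h1
  set p : ℝ := 2 ^ Int.log 2 ‖z‖ with hp'
  have hp : 0 < p := by positivity
  have e1 : (lab z).1 = (lab z').1 := by rw [h]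
  have e2 : (lab z).2.1 = (lab z').2.1 := by rw [h]
  have e3 : (lab z).2.2 = (lab z').2.2 := by rw [h]
  simp only [lab] at e1 e2 e3
  rw [← e1, ← hp'] at e2 e3
  have h2 := Int.abs_sub_lt_one_of_floor_eq_floor e2
  have h3 := Int.abs_sub_lt_one_of_floor_eq_floor e3
  rw [← sub_div, abs_div, abs_of_pos hp, div_lt_one hp, ← mul_sub, abs_mul, abs_two,
    ← Complex.sub_re] at h2
  rw [← sub_div, abs_div, abs_of_pos hp, div_lt_one hp, ← mul_sub, abs_mul, abs_two,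
    ← Complex.sub_im] at h3
  have h4 := Complex.norm_le_abs_re_add_abs_im (z - z')
  linarith

theorem lab_pow {z : ℂ} (hz : z ≠ 0) :
    (2 : ℝ) ^ (lab z).1.natAbs * ‖z‖ ≤ 2 * (max 1 ‖z‖) ^ 2 := by
  have h0 : 0 < ‖z‖ := norm_pos_iff.mpr hz
  have h1 := Int.zpow_log_le_self (b := 2) (by norm_num) h0
  have h2 := Int.lt_zpow_succ_log_self (b := 2) (by norm_num) ‖z‖
  push_cast at h1 h2
  simp only [lab]
  rw [zpow_add_one₀ (by norm_num)] at h2
  set j := Int.log 2 ‖z‖ with hj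
  have hm1 : 1 ≤ max 1 ‖z‖ := le_max_left _ _
  have hm2 : ‖z‖ ≤ max 1 ‖z‖ := le_max_right _ _
  rcases le_total 0 j with hj0 | hj0
  · have e : (2 : ℝ) ^ j.natAbs = 2 ^ j := by
      rw [← zpow_natCast, Int.natAbs_of_nonneg hj0]
    rw [e]
    nlinarith
  · have e : (2 : ℝ) ^ j.natAbs = (2 ^ j)⁻¹ := by
      rw [← zpow_natCast, ← zpow_neg]
      congr 1
      omega
    rw [e, inv_mul_le_iff₀ (by positivity)]
    have hpos : (0 : ℝ) < 2 ^ j := by positivity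
    have hm3 : 1 ≤ (max 1 ‖z‖) ^ 2 := one_le_pow₀ hm1
    have hm4 := mul_le_mul_of_nonneg_left hm3 hpos.le
    linarith

/-- different generators of the same ideal have different labels -/
theorem lab_inj {x y : 𝓞 K} (hx : x ≠ 0) (hxy : Ideal.span {x} = Ideal.span {y})
    (h : ∀ φ : K →+* ℂ, lab (φ (x : K)) = lab (φ (y : K))) : x = y := by
  by_contra hne
  have hd : x - y ≠ 0 := sub_ne_zero.mpr hne
  have hmem : x - y ∈ Ideal.span {x} := by
    refine Ideal.sub_mem _ (Ideal.mem_span_singleton_self x) ?_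
    rw [hxy]
    exact Ideal.mem_span_singleton_self y
  have h1 : Ideal.absNorm (Ideal.span {x}) ∣ Ideal.absNorm (Ideal.span {x - y}) :=
    map_dvd Ideal.absNorm (Ideal.dvd_span_singleton.mpr hmem)
  have h2 := Nat.le_of_dvd (absNorm_pos hd) h1
  have h3 : ((Ideal.absNorm (Ideal.span {x}) : ℕ) : ℝ) ≤
      ((Ideal.absNorm (Ideal.span {x - y}) : ℕ) : ℝ) := by exact_mod_cast h2
  rw [absNorm_eq_prod, absNorm_eq_prod] at h3
  have hx' : (x : K) ≠ 0 := fun h' => hx (RingOfIntegers.ext (h'.trans (map_zero _).symm))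
  have h4 : ∏ φ : K →+* ℂ, ‖φ ((x - y : 𝓞 K) : K)‖ < ∏ φ : K →+* ℂ, ‖φ (x : K)‖ := by
    have hlt : ∀ φ : K →+* ℂ, ‖φ ((x - y : 𝓞 K) : K)‖ < ‖φ (x : K)‖ := by
      intro φ
      have e : φ ((x - y : 𝓞 K) : K) = φ (x : K) - φ (y : K) := by
        rw [← map_sub]; congr 1
      rw [e]
      exact lab_close (by rw [Ne, map_eq_zero]; exact hx') (h φ)
    have hd' : ((x - y : 𝓞 K) : K) ≠ 0 := fun h' => hd (RingOfIntegers.ext (h'.trans (map_zero _).symm))
    exact Finset.prod_lt_prod_of_nonempty (fun φ _ => norm_pos_iff.mpr (by rw [Ne, map_eq_zero]; exact hd'))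
      (fun φ _ => hlt φ) Finset.univ_nonempty
  linarith

theorem sum_geo (q : ℝ) (h0 : 0 < q) (h1 : q < 1) (R : ℕ) :
    ∑ j ∈ Finset.Icc (-(R : ℤ)) R, q ^ j.natAbs ≤ 2 / (1 - q) := by
  classical
  have hsub : Finset.Icc (-(R : ℤ)) R ⊆ (Finset.range (R + 1)).image (fun i : ℕ => (i : ℤ)) ∪
      (Finset.range (R + 1)).image (fun i : ℕ => -(i : ℤ)) := by
    intro j hj
    rw [Finset.mem_Icc] at hj
    rw [Finset.mem_union, Finset.mem_image, Finset.mem_image]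
    rcases le_total 0 j with h | h
    · exact Or.inl ⟨j.natAbs, Finset.mem_range.mpr (by omega), by omega⟩
    · exact Or.inr ⟨j.natAbs, Finset.mem_range.mpr (by omega), by omega⟩
  have hg : ∑ i ∈ Finset.range (R + 1), q ^ i ≤ 1 / (1 - q) := by
    rw [geom_sum_eq h1.ne, ← neg_div_neg_eq, neg_sub, neg_sub]
    have : 0 < q ^ (R + 1) := by positivity
    exact div_le_div_of_nonneg_right (by linarith) (by linarith)
  have e1 : ∑ j ∈ (Finset.range (R + 1)).image (fun i : ℕ => (i : ℤ)), q ^ j.natAbs =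
      ∑ i ∈ Finset.range (R + 1), q ^ i := by
    rw [Finset.sum_image (fun a _ b _ h => by simpa using h)]
    simp
  have e2 : ∑ j ∈ (Finset.range (R + 1)).image (fun i : ℕ => -(i : ℤ)), q ^ j.natAbs =
      ∑ i ∈ Finset.range (R + 1), q ^ i := by
    rw [Finset.sum_image (fun a _ b _ h => by simpa using h)]
    simp
  have h3 := Finset.sum_union_inter (s₁ := (Finset.range (R + 1)).image (fun i : ℕ => (i : ℤ)))
    (s₂ := (Finset.range (R + 1)).image (fun i : ℕ => -(i : ℤ))) (f := fun j : ℤ => q ^ j.natAbs)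
  have h4 : 0 ≤ ∑ j ∈ (Finset.range (R + 1)).image (fun i : ℕ => (i : ℤ)) ∩
      (Finset.range (R + 1)).image (fun i : ℕ => -(i : ℤ)), q ^ j.natAbs :=
    Finset.sum_nonneg fun _ _ => by positivity
  calc ∑ j ∈ Finset.Icc (-(R : ℤ)) R, q ^ j.natAbs ≤ _ :=
        Finset.sum_le_sum_of_subset_of_nonneg hsub fun _ _ _ => by positivity
    _ ≤ ∑ i ∈ Finset.range (R + 1), q ^ i + ∑ i ∈ Finset.range (R + 1), q ^ i := by
        rw [e1, e2] at h3; linarith
    _ ≤ 1 / (1 - q) + 1 / (1 - q) := add_le_add hg hg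
    _ = 2 / (1 - q) := by ring

end

/-- **Generators of bounded height**: an ideal of a field of degree `m` has at most `D ^ m X ^ κ`
generators of height at most `X`. -/
theorem generators_eps (κ : ℝ) (hκ : 0 < κ) : ∃ D : ℝ, 1 ≤ D ∧ ∀ (K : Type) [Field K]
    [NumberField K] (J : Ideal (𝓞 K)) (X : ℝ), 1 ≤ X → ∀ S : Finset (𝓞 K),
      (∀ x ∈ S, x ≠ 0 ∧ Ideal.span {x} = J ∧ Ht (x : K) ≤ X) →
      (S.card : ℝ) ≤ D ^ finrank ℚ K * X ^ κ := by
  classical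
  set κ' : ℝ := κ / 2 with hκ'
  have hκ0 : 0 < κ' := by positivity
  set q : ℝ := (2 : ℝ) ^ (-κ') with hq
  have hq0 : 0 < q := Real.rpow_pos_of_pos (by norm_num) _
  have hq1 : q < 1 := Real.rpow_lt_one_of_one_lt_of_neg (by norm_num) (by linarith)
  obtain ⟨G, hG⟩ : ∃ G : ℝ, G = 81 * (2 / (1 - q)) := ⟨_, rfl⟩
  have hG1 : 1 ≤ G := by
    have : 2 ≤ 2 / (1 - q) := by
      rw [le_div_iff₀ (by linarith)]; nlinarith
    rw [hG]; linarith
  have h2κ : 1 ≤ (2 : ℝ) ^ κ' := Real.one_le_rpow (by norm_num) hκ0.le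
  refine ⟨(2 : ℝ) ^ κ' * G, by nlinarith, ?_⟩
  intro K _ _ J X hX S hS
  have hne : ∀ x ∈ S, ∀ φ : K →+* ℂ, φ (x : K) ≠ 0 := by
    intro x hx φ
    rw [Ne, map_eq_zero]
    exact fun h' => (hS x hx).1 (RingOfIntegers.ext (h'.trans (map_zero _).symm))
  -- the labels
  let f : 𝓞 K → (K →+* ℂ) → ℤ × ℤ × ℤ := fun x φ => lab (φ (x : K))
  obtain ⟨R, hR⟩ : ∃ R : ℕ, ∀ x ∈ S, ∀ φ : K →+* ℂ, (f x φ).1.natAbs ≤ R := by
    refine ⟨∑ x ∈ S, ∑ φ : K →+* ℂ, (f x φ).1.natAbs, fun x hx φ => ?_⟩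
    exact (Finset.single_le_sum (f := fun φ : K →+* ℂ => (f x φ).1.natAbs) (fun _ _ => Nat.zero_le _)
      (Finset.mem_univ φ)).trans
      (Finset.single_le_sum (f := fun x => ∑ φ : K →+* ℂ, (f x φ).1.natAbs)
        (fun _ _ => Nat.zero_le _) hx)
  let T : Finset (ℤ × ℤ × ℤ) := Finset.Icc (-(R : ℤ)) R ×ˢ (Finset.Icc (-4 : ℤ) 4 ×ˢ Finset.Icc (-4 : ℤ) 4)
  let w : ℤ × ℤ × ℤ → ℝ := fun t => q ^ t.1.natAbs
  have hwT : ∑ t ∈ T, w t ≤ G := by
    have e : ∑ t ∈ T, w t = 81 * ∑ j ∈ Finset.Icc (-(R : ℤ)) R, q ^ j.natAbs := by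
      simp only [T, w]
      rw [Finset.sum_product, Finset.mul_sum]
      refine Finset.sum_congr rfl fun j _ => ?_
      have hc : (Finset.Icc (-4 : ℤ) 4 ×ˢ Finset.Icc (-4 : ℤ) 4).card = 81 := by
        rw [Finset.card_product, Int.card_Icc]; rfl
      simp only [Finset.sum_const, hc, nsmul_eq_mul]
      norm_num
    rw [e, hG]
    have := sum_geo q hq0 hq1 R
    linarith
  have hfT : ∀ x ∈ S, f x ∈ Fintype.piFinset fun _ : K →+* ℂ => T := by
    intro x hx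
    rw [Fintype.mem_piFinset]
    intro φ
    have h1 := lab_mem (hne x hx φ)
    refine Finset.mem_product.mpr ⟨?_, Finset.mem_product.mpr h1⟩
    have := hR x hx φ
    rw [Finset.mem_Icc]
    omega
  have hinj : Set.InjOn f S := by
    intro x hx y hy hxy
    rw [Finset.mem_coe] at hx hy
    refine lab_inj (hS x hx).1 ((hS x hx).2.1.trans (hS y hy).2.1.symm) fun φ => ?_
    exact congrFun hxy φ
  have hX0 : 0 < X := by linarith
  set m := finrank ℚ K with hm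
  have hcard : Fintype.card (K →+* ℂ) = m := Embeddings.card K ℂ
  have hprod : ∀ x ∈ S, 1 ≤ (2 ^ m * X ^ 2) ^ κ' * ∏ φ : K →+* ℂ, w (f x φ) := by
    intro x hx
    have h1 : ∏ φ : K →+* ℂ, ((2 : ℝ) ^ (f x φ).1.natAbs * ‖φ (x : K)‖) ≤
        ∏ φ : K →+* ℂ, (2 * (max 1 ‖φ (x : K)‖) ^ 2) :=
      Finset.prod_le_prod (fun _ _ => by positivity) fun φ _ => lab_pow (hne x hx φ)
    rw [Finset.prod_mul_distrib, Finset.prod_mul_distrib, Finset.prod_const, Finset.card_univ, hcard,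
      Finset.prod_pow, ← absNorm_eq_prod] at h1
    have h2 : (1 : ℝ) ≤ ((Ideal.absNorm (Ideal.span {x}) : ℕ) : ℝ) := by
      exact_mod_cast absNorm_pos (hS x hx).1
    set Y : ℝ := ∏ φ : K →+* ℂ, (2 : ℝ) ^ (f x φ).1.natAbs with hY
    have hY0 : 0 < Y := Finset.prod_pos fun _ _ => by positivity
    have h3 : Y ≤ 2 ^ m * X ^ 2 := by
      calc Y = Y * 1 := (mul_one _).symm
        _ ≤ Y * ((Ideal.absNorm (Ideal.span {x}) : ℕ) : ℝ) := mul_le_mul_of_nonneg_left h2 hY0.le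
        _ ≤ _ := h1
        _ ≤ 2 ^ m * X ^ 2 := by
            refine mul_le_mul_of_nonneg_left (pow_le_pow_left₀ ?_ (hS x hx).2.2 _) (by positivity)
            exact Finset.prod_nonneg fun _ _ => by positivity
    have h4 : ∏ φ : K →+* ℂ, w (f x φ) = Y ^ (-κ') := by
      rw [hY, ← Real.finsetProd_rpow _ _ (fun _ _ => by positivity)]
      refine Finset.prod_congr rfl fun φ _ => ?_
      simp only [w, hq]
      rw [← Real.rpow_natCast, ← Real.rpow_natCast, ← Real.rpow_mul (by norm_num),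
        ← Real.rpow_mul (by norm_num), mul_comm]
    rw [h4, Real.rpow_neg hY0.le, ← div_eq_mul_inv, one_le_div (Real.rpow_pos_of_pos hY0 _)]
    exact Real.rpow_le_rpow hY0.le h3 hκ0.le
  calc (S.card : ℝ) = ∑ x ∈ S, (1 : ℝ) := by simp
    _ ≤ ∑ x ∈ S, (2 ^ m * X ^ 2) ^ κ' * ∏ φ : K →+* ℂ, w (f x φ) := Finset.sum_le_sum hprod
    _ = (2 ^ m * X ^ 2) ^ κ' * ∑ x ∈ S, ∏ φ : K →+* ℂ, w (f x φ) := by rw [Finset.mul_sum]
    _ ≤ (2 ^ m * X ^ 2) ^ κ' * ∑ g ∈ Fintype.piFinset (fun _ : K →+* ℂ => T), ∏ φ : K →+* ℂ, w (g φ) := by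
        refine mul_le_mul_of_nonneg_left ?_ (by positivity)
        rw [← Finset.sum_image (f := fun g : (K →+* ℂ) → ℤ × ℤ × ℤ => ∏ φ : K →+* ℂ, w (g φ))
          (g := f) (s := S) (fun x hx y hy h => hinj hx hy h)]
        refine Finset.sum_le_sum_of_subset_of_nonneg ?_ fun _ _ _ =>
          Finset.prod_nonneg fun _ _ => by positivity
        intro g hg
        obtain ⟨x, hx, rfl⟩ := Finset.mem_image.mp hg
        exact hfT x hx
    _ = (2 ^ m * X ^ 2) ^ κ' * (∑ t ∈ T, w t) ^ m := by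
        rw [← Finset.prod_univ_sum (fun _ : K →+* ℂ => T) (fun _ t => w t), Finset.prod_const,
          Finset.card_univ, hcard]
    _ ≤ (2 ^ m * X ^ 2) ^ κ' * G ^ m := by
        refine mul_le_mul_of_nonneg_left (pow_le_pow_left₀ ?_ hwT _) (by positivity)
        exact Finset.sum_nonneg fun _ _ => by positivity
    _ = ((2 : ℝ) ^ κ' * G) ^ m * X ^ κ := by
        rw [Real.mul_rpow (by positivity) (by positivity), mul_pow, ← Real.rpow_natCast (2 : ℝ) m,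
          ← Real.rpow_mul (by norm_num), mul_comm (m : ℝ), Real.rpow_mul (by norm_num),
          Real.rpow_natCast, ← Real.rpow_natCast X 2, ← Real.rpow_mul hX0.le, hκ']
        rw [show ((2 : ℕ) : ℝ) * (κ / 2) = κ by push_cast; ring]
        ring

end Pool.Agent.U516.SP
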