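import Mathlib
import Pool.Agent.U516.SP.Thr2

/-! Products of algebraic integers of bounded height: almost all products are distinct. -/

set_option autoImplicit false

open NumberField Module UniqueFactorizationMonoid Filter Topology
open scoped Pointwise

namespace Pool.Agent.U516.SP

/-- the number of divisors of bounded height -/
theorem elements_eps (κ : ℝ) (hκ : 0 < κ) : ∃ D : ℝ, 1 ≤ D ∧ ∀ (K : Type) [Field K]
    [NumberField K] (x : 𝓞 K) (X : ℝ), x ≠ 0 → 1 ≤ X → ∀ S : Finset (𝓞 K),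
      (∀ a ∈ S, a ∣ x ∧ Ht (a : K) ≤ X) →
      (S.card : ℝ) ≤ D ^ finrank ℚ K * (((Ideal.absNorm (Ideal.span {x}) : ℕ) : ℝ) * X) ^ κ := by
  classical
  obtain ⟨D₁, hD₁, h₁⟩ := divisors_eps κ hκ
  obtain ⟨D₂, hD₂, h₂⟩ := generators_eps κ hκ
  refine ⟨D₁ * D₂, by nlinarith, ?_⟩
  intro K _ _ x X hx hX S hS
  obtain ⟨F, hF1, hF2⟩ := h₁ K (Ideal.span {x}) (by
    rw [Ne, Ideal.span_singleton_eq_bot]; exact hx)
  have hX0 : 0 < X := by linarith
  have hcov : S ⊆ F.biUnion fun J => S.filter fun a => Ideal.span {a} = J := by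
    intro a ha
    refine Finset.mem_biUnion.mpr ⟨Ideal.span {a}, hF1 _ ?_, Finset.mem_filter.mpr ⟨ha, rfl⟩⟩
    obtain ⟨c, hc⟩ := (hS a ha).1
    rw [hc, ← Ideal.span_singleton_mul_span_singleton]
    exact dvd_mul_right _ _
  calc (S.card : ℝ) ≤ ((F.biUnion fun J => S.filter fun a => Ideal.span {a} = J).card : ℝ) := by
        exact_mod_cast Finset.card_le_card hcov
    _ ≤ ∑ J ∈ F, ((S.filter fun a => Ideal.span {a} = J).card : ℝ) := by
        exact_mod_cast Finset.card_biUnion_le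
    _ ≤ F.card • (D₂ ^ finrank ℚ K * X ^ κ) := by
        refine Finset.sum_le_card_nsmul _ _ _ fun J _ => ?_
        refine h₂ K J X hX _ fun a ha => ?_
        rw [Finset.mem_filter] at ha
        refine ⟨?_, ha.2, (hS a ha.1).2⟩
        rintro rfl
        exact hx (zero_dvd_iff.mp (hS 0 ha.1).1)
    _ = F.card * (D₂ ^ finrank ℚ K * X ^ κ) := nsmul_eq_mul _ _
    _ ≤ (D₁ ^ finrank ℚ K * ((Ideal.absNorm (Ideal.span {x}) : ℕ) : ℝ) ^ κ) *
          (D₂ ^ finrank ℚ K * X ^ κ) := mul_le_mul_of_nonneg_right hF2 (by positivity)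
    _ = _ := by
        rw [mul_pow, Real.mul_rpow (by positivity) hX0.le]
        ring

theorem absNorm_le_Ht {K : Type} [Field K] [NumberField K] (a : 𝓞 K) :
    ((Ideal.absNorm (Ideal.span {a}) : ℕ) : ℝ) ≤ Ht (a : K) := by
  rw [absNorm_eq_prod]
  exact prod_le_Ht _

/-- **Products of bounded height**: `|A| ^ k ≤ |A ^ k| D ^ m X ^ κ`. -/
theorem products_eps (k : ℕ) (κ : ℝ) (hκ : 0 < κ) : ∃ D : ℝ, 1 ≤ D ∧ ∀ (K : Type) [Field K]
    [NumberField K] [DecidableEq (𝓞 K)] (X : ℝ), 1 ≤ X → ∀ A : Finset (𝓞 K),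
      (∀ a ∈ A, a ≠ 0 ∧ Ht (a : K) ≤ X) →
      (A.card : ℝ) ^ k ≤ (A ^ k).card * (D ^ finrank ℚ K * X ^ κ) := by
  classical
  set κ' : ℝ := κ / ((k + 1) * (k + 1)) with hκ'
  have hκ0 : 0 < κ' := by positivity
  obtain ⟨D, hD, h⟩ := elements_eps κ' hκ0
  refine ⟨D ^ k, one_le_pow₀ hD, ?_⟩
  intro K _ _ inst X hX A hA
  have hX0 : 0 < X := by linarith
  set m := finrank ℚ K with hm
  have hD0 : 0 < D := by linarith
  -- fibres of the product map
  let P : Finset (Fin k → 𝓞 K) := Fintype.piFinset fun _ => A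
  have hPcard : P.card = A.card ^ k := by simp [P]
  have hmap : ∀ f ∈ P, ∏ i, f i ∈ A ^ k := by
    intro f hf
    have hf' : ∀ i, f i ∈ A := fun i => Fintype.mem_piFinset.mp hf i
    rw [Finset.mem_pow]
    exact ⟨fun i => ⟨f i, hf' i⟩, by rw [List.prod_ofFn]⟩
  have hfib : ∀ x ∈ A ^ k, ((P.filter fun f => ∏ i, f i = x).card : ℝ) ≤ D ^ (k * m) * X ^ κ := by
    intro x _
    rcases (P.filter fun f => ∏ i, f i = x).eq_empty_or_nonempty with he | ⟨f₀, hf₀⟩
    · rw [he]; simp only [Finset.card_empty, Nat.cast_zero]; positivity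
    have hf₀' := Finset.mem_filter.mp hf₀
    have hf₀A : ∀ i, f₀ i ∈ A := fun i => Fintype.mem_piFinset.mp hf₀'.1 i
    have hx0 : x ≠ 0 := by
      rw [← hf₀'.2]
      exact Finset.prod_ne_zero_iff.mpr fun i _ => (hA _ (hf₀A i)).1
    have hxN : ((Ideal.absNorm (Ideal.span {x}) : ℕ) : ℝ) ≤ X ^ k := by
      rw [← hf₀'.2, ← Ideal.prod_span_singleton, map_prod]
      push_cast
      calc ∏ i, ((Ideal.absNorm (Ideal.span {f₀ i}) : ℕ) : ℝ) ≤ ∏ _i : Fin k, X :=
            Finset.prod_le_prod (fun _ _ => by positivity) fun i _ =>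
              (absNorm_le_Ht _).trans (hA _ (hf₀A i)).2
        _ = X ^ k := by simp
    have hxN1 : (1 : ℝ) ≤ ((Ideal.absNorm (Ideal.span {x}) : ℕ) : ℝ) := by
      exact_mod_cast absNorm_pos hx0
    let S : Finset (𝓞 K) := A.filter fun a => a ∣ x
    have hS : (S.card : ℝ) ≤ D ^ m * (X ^ (k + 1)) ^ κ' := by
      refine (h K x X hx0 hX S fun a ha => ?_).trans ?_
      · exact ⟨(Finset.mem_filter.mp ha).2, (hA a (Finset.mem_filter.mp ha).1).2⟩
      · refine mul_le_mul_of_nonneg_left (Real.rpow_le_rpow (by positivity) ?_ hκ0.le) (by positivity)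
        rw [pow_succ]
        exact mul_le_mul_of_nonneg_right hxN hX0.le
    have hsub : (P.filter fun f => ∏ i, f i = x) ⊆ Fintype.piFinset fun _ : Fin k => S := by
      intro f hf
      obtain ⟨h1, h2⟩ := Finset.mem_filter.mp hf
      rw [Fintype.mem_piFinset] at h1 ⊢
      intro i
      refine Finset.mem_filter.mpr ⟨h1 i, ?_⟩
      rw [← h2]
      exact Finset.dvd_prod_of_mem f (Finset.mem_univ i)
    calc ((P.filter fun f => ∏ i, f i = x).card : ℝ) ≤ (S.card : ℝ) ^ k := by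
          have := Finset.card_le_card hsub
          rw [Fintype.card_piFinset, Finset.prod_const, Finset.card_univ, Fintype.card_fin] at this
          exact_mod_cast this
      _ ≤ (D ^ m * (X ^ (k + 1)) ^ κ') ^ k := pow_le_pow_left₀ (Nat.cast_nonneg _) hS _
      _ = D ^ (k * m) * X ^ (κ * (k / (k + 1))) := by
          rw [mul_pow, ← pow_mul, mul_comm m k, ← Real.rpow_natCast X, ← Real.rpow_mul hX0.le,
            ← Real.rpow_natCast (X ^ _), ← Real.rpow_mul hX0.le, hκ']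
          congr 2
          push_cast
          field_simp
      _ ≤ D ^ (k * m) * X ^ κ := by
          refine mul_le_mul_of_nonneg_left (Real.rpow_le_rpow_of_exponent_le hX ?_) (by positivity)
          have : (k : ℝ) / (k + 1) ≤ 1 := by
            rw [div_le_one (by positivity)]; linarith
          nlinarith
  have hsum : P.card = ∑ x ∈ A ^ k, (P.filter fun f => ∏ i, f i = x).card :=
    Finset.card_eq_sum_card_fiberwise (f := fun f : Fin k → 𝓞 K => ∏ i, f i) (t := A ^ k)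
      (fun f hf => hmap f hf)
  calc (A.card : ℝ) ^ k = (P.card : ℝ) := by rw [hPcard]; push_cast; rfl
    _ = ∑ x ∈ A ^ k, ((P.filter fun f => ∏ i, f i = x).card : ℝ) := by rw [hsum]; push_cast; rfl
    _ ≤ (A ^ k).card • (D ^ (k * m) * X ^ κ) := Finset.sum_le_card_nsmul _ _ _ hfib
    _ = (A ^ k).card * ((D ^ k) ^ m * X ^ κ) := by rw [nsmul_eq_mul, pow_mul]

end Pool.Agent.U516.SP
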