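import Mathlib
import Pool.Agent.U516.SP.Thr4

/-! The degree threshold `log n` for the sum-product conjecture. -/

set_option autoImplicit false

open NumberField NumberField.InfinitePlace Module IsDedekindDomain
open Pool.Agent.TeamU Filter Topology
open scoped Pointwise NNReal

namespace Pool.Agent.U516.SP

theorem small_degree (f : ℕ → ℕ) (C : ℝ) (hC : 1 < C)
    (hf : (fun n => (f n : ℝ)) =o[atTop] (fun n : ℕ => Real.log n)) (k : ℕ) (ε : ℝ) (hε : 0 < ε) :
    ∃ n₀ : ℕ, ∀ n : ℕ, n₀ ≤ n → ∀ (K : Type) [Field K] [NumberField K] [DecidableEq (𝓞 K)],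
      finrank ℚ K ≤ f n → ∀ A : Finset (𝓞 K), A.card = n → (∀ a ∈ A, Ht (a : K) ≤ (n : ℝ) ^ C) →
      (n : ℝ) ^ ((k : ℝ) - ε) ≤ (A ^ k).card := by
  have hC0 : 0 < C := by linarith
  obtain ⟨D, hD, h⟩ := products_eps k (ε / (4 * C)) (by positivity)
  have hD0 : 0 < D := by linarith
  have hlD : 0 ≤ Real.log D := Real.log_nonneg hD
  set η : ℝ := ε / (4 * (Real.log D + 1)) with hη
  have hη0 : 0 < η := by positivity
  rw [Asymptotics.isLittleO_iff] at hf
  obtain ⟨n₁, hn₁⟩ := (hf hη0).exists_forall_of_atTop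
  have hlim : Tendsto (fun n : ℕ => (n : ℝ) ^ (ε / 4)) atTop atTop :=
    (tendsto_rpow_atTop (by positivity)).comp tendsto_natCast_atTop_atTop
  obtain ⟨n₂, hn₂⟩ := (hlim.eventually_ge_atTop ((2 : ℝ) ^ k)).exists_forall_of_atTop
  refine ⟨max 2 (max n₁ n₂), fun n hn K _ _ inst hdeg A hA hAh => ?_⟩
  have hn2 : 2 ≤ n := (le_max_left _ _).trans hn
  have h1 := hn₁ n (((le_max_left _ _).trans (le_max_right _ _)).trans hn)
  have h2 := hn₂ n (((le_max_right _ _).trans (le_max_right _ _)).trans hn)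
  have hnR : (2 : ℝ) ≤ n := by exact_mod_cast hn2
  have hn0 : (0 : ℝ) < n := by linarith
  have hlog : 0 ≤ Real.log n := Real.log_nonneg (by linarith)
  rw [Real.norm_of_nonneg (Nat.cast_nonneg _), Real.norm_of_nonneg hlog] at h1
  set m := finrank ℚ K with hm
  -- the degree
  have hDm : D ^ m ≤ (n : ℝ) ^ (ε / 4) := by
    rw [← Real.rpow_natCast, Real.rpow_def_of_pos hD0, Real.rpow_def_of_pos hn0, Real.exp_le_exp]
    have h3 : (m : ℝ) ≤ η * Real.log n := le_trans (by exact_mod_cast hdeg) h1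
    calc Real.log D * m ≤ Real.log D * (η * Real.log n) := mul_le_mul_of_nonneg_left h3 hlD
      _ ≤ (Real.log D + 1) * (η * Real.log n) :=
          mul_le_mul_of_nonneg_right (by linarith) (by positivity)
      _ = Real.log n * (ε / 4) := by rw [hη]; field_simp
  set A' := A.erase 0 with hA'
  have hAX : ∀ a ∈ A', a ≠ 0 ∧ Ht (a : K) ≤ (n : ℝ) ^ C := fun a ha =>
    ⟨Finset.ne_of_mem_erase ha, hAh a (Finset.mem_of_mem_erase ha)⟩
  have h3 := h K ((n : ℝ) ^ C) (Real.one_le_rpow (by linarith) hC0.le) A' hAX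
  rw [← Real.rpow_mul hn0.le, show C * (ε / (4 * C)) = ε / 4 by field_simp, ← hm] at h3
  have hcard : (n : ℝ) / 2 ≤ A'.card := by
    have h4 : A.card - 1 ≤ A'.card := Finset.pred_card_le_card_erase
    rw [hA] at h4
    have h5 : (n : ℝ) - 1 ≤ A'.card := by
      have : ((n - 1 : ℕ) : ℝ) ≤ A'.card := by exact_mod_cast h4
      rwa [Nat.cast_sub (by omega), Nat.cast_one] at this
    linarith
  have hsub : ((A' ^ k).card : ℝ) ≤ (A ^ k).card := by
    exact_mod_cast Finset.card_le_card (Finset.pow_subset_pow_left (Finset.erase_subset _ _))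
  have hp : 0 < (n : ℝ) ^ (ε / 4) := Real.rpow_pos_of_pos hn0 _
  have h6 : (n : ℝ) ^ k ≤ (A ^ k).card * ((n : ℝ) ^ (ε / 4)) ^ 3 := by
    calc (n : ℝ) ^ k = 2 ^ k * ((n : ℝ) / 2) ^ k := by rw [← mul_pow]; congr 1; ring
      _ ≤ (n : ℝ) ^ (ε / 4) * (A'.card : ℝ) ^ k :=
          mul_le_mul h2 (pow_le_pow_left₀ (by positivity) hcard _) (by positivity) hp.le
      _ ≤ (n : ℝ) ^ (ε / 4) * ((A' ^ k).card * (D ^ m * (n : ℝ) ^ (ε / 4))) :=
          mul_le_mul_of_nonneg_left h3 hp.le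
      _ ≤ (n : ℝ) ^ (ε / 4) * ((A ^ k).card * ((n : ℝ) ^ (ε / 4) * (n : ℝ) ^ (ε / 4))) := by
          refine mul_le_mul_of_nonneg_left ?_ hp.le
          exact mul_le_mul hsub (mul_le_mul_of_nonneg_right hDm hp.le) (by positivity)
            (Nat.cast_nonneg _)
      _ = _ := by ring
  have h7 : ((n : ℝ) ^ (ε / 4)) ^ 3 ≤ (n : ℝ) ^ ε := by
    rw [← Real.rpow_natCast, ← Real.rpow_mul hn0.le]
    refine Real.rpow_le_rpow_of_exponent_le (by linarith) ?_
    push_cast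
    linarith
  rw [Real.rpow_sub hn0, Real.rpow_natCast, div_le_iff₀ (Real.rpow_pos_of_pos hn0 _)]
  exact h6.trans (mul_le_mul_of_nonneg_left h7 (Nat.cast_nonneg _))

theorem threshold (hT : TowerS) (f : ℕ → ℕ) (C : ℝ) (hC : 1 < C) : List.TFAE [
    (fun n => (f n : ℝ)) =o[atTop] (fun n : ℕ => Real.log n),
    ∀ k : ℕ, ∀ ε : ℝ, 0 < ε → ∃ n₀ : ℕ, ∀ n : ℕ, n₀ ≤ n →
      ∀ (K : Type) [Field K] [NumberField K] [DecidableEq (𝓞 K)], finrank ℚ K ≤ f n →
      ∀ A : Finset (𝓞 K), A.card = n → (∀ a ∈ A, Ht (a : K) ≤ (n : ℝ) ^ C) →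
      (n : ℝ) ^ ((k : ℝ) - ε) ≤ (A ^ k).card,
    ∀ ε : ℝ, 0 < ε → ∃ n₀ : ℕ, ∀ n : ℕ, n₀ ≤ n →
      ∀ (K : Type) [Field K] [NumberField K] [DecidableEq (𝓞 K)], finrank ℚ K ≤ f n →
      ∀ A : Finset (𝓞 K), A.card = n → (∀ a ∈ A, Ht (a : K) ≤ (n : ℝ) ^ C) →
      (n : ℝ) ^ (2 - ε) ≤ max ((A + A).card : ℝ) ((A * A).card : ℝ)] := by
  tfae_have 1 → 2 := fun hf k ε hε => small_degree f C hC hf k ε hε
  tfae_have 2 → 3 := by
    intro h ε hε
    obtain ⟨n₀, hn₀⟩ := h 2 ε hε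
    refine ⟨n₀, fun n hn K _ _ inst hdeg A hA hAh => ?_⟩
    have h1 := hn₀ n hn K hdeg A hA hAh
    rw [sq] at h1
    push_cast at h1
    exact h1.trans (le_max_right _ _)
  tfae_have 3 → 1 := by
    intro h
    obtain ⟨c, hc, hmain⟩ := main_field_h hT
    rw [Asymptotics.isLittleO_iff]
    intro η hη
    set δ : ℝ := min η (min (C - 1) (1 / 2)) with hδ
    have hδ0 : 0 < δ := lt_min hη (lt_min (by linarith) (by norm_num))
    have hδη : δ ≤ η := min_le_left _ _
    have hδC : δ ≤ C - 1 := (min_le_right _ _).trans (min_le_left _ _)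
    have hδ2 : δ ≤ 1 / 2 := (min_le_right _ _).trans (min_le_right _ _)
    obtain ⟨n₁, hn₁⟩ := hmain δ hδ0 (by linarith)
    set ε : ℝ := min (c * δ) (1 / 2) / 2 with hε
    have hmin0 : 0 < min (c * δ) (1 / 2) := lt_min (by positivity) (by norm_num)
    have hε0 : 0 < ε := by positivity
    have hε1 : ε < c * δ := by
      have : min (c * δ) (1 / 2) ≤ c * δ := min_le_left _ _
      linarith
    have hε2 : ε < 1 / 2 := by
      have : min (c * δ) (1 / 2) ≤ 1 / 2 := min_le_right _ _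
      linarith
    obtain ⟨n₂, hn₂⟩ := h ε hε0
    refine eventually_atTop.mpr ⟨max 2 (max n₁ n₂), fun n hn => ?_⟩
    have hn2 : 2 ≤ n := (le_max_left _ _).trans hn
    have hnR : (2 : ℝ) ≤ n := by exact_mod_cast hn2
    have hlog : 0 ≤ Real.log n := Real.log_nonneg (by linarith)
    rw [Real.norm_of_nonneg (Nat.cast_nonneg _), Real.norm_of_nonneg hlog]
    by_contra hcon
    push Not at hcon
    obtain ⟨L, _, _, _, A, -, hdeg, hA, hAh, hs, hp⟩ :=
      hn₁ n (((le_max_left _ _).trans (le_max_right _ _)).trans hn)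
    have hdeg' : finrank ℚ L ≤ f n := by
      have h1 : (finrank ℚ L : ℝ) ≤ f n := by
        refine hdeg.trans (le_trans ?_ hcon.le)
        exact mul_le_mul_of_nonneg_right hδη hlog
      exact_mod_cast h1
    have h1 := hn₂ n (((le_max_right _ _).trans (le_max_right _ _)).trans hn) L hdeg' A hA
      (fun a ha => (hAh a ha).2.trans (Real.rpow_le_rpow_of_exponent_le (by linarith) (by linarith)))
    have h3 : max ((A + A).card : ℝ) ((A * A).card : ℝ) < (n : ℝ) ^ (2 - ε) := by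
      refine max_lt (hs.trans_lt ?_) (hp.trans_lt ?_)
      · exact Real.rpow_lt_rpow_of_exponent_lt (by linarith) (by linarith)
      · exact Real.rpow_lt_rpow_of_exponent_lt (by linarith) (by linarith)
    linarith
  tfae_finish

end Pool.Agent.U516.SP
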